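import Mathlib

/-! Deterministic greedy process on items with ring times (used for random order contention
resolution for matchings, MP_73ccd0_lc): selection rule, locality, deletion inequality. -/

set_option linter.unusedSectionVars false

namespace Pool.Agent.RCRS

section Greedy

variable {ι V : Type*} [Fintype ι] [DecidableEq ι] [DecidableEq V] (en : ι → Finset V)

/-- well-foundedness of the order by ring times on a finite type -/
theorem wf_time (ρ : ι → ℝ) : WellFounded (fun g f : ι => ρ g < ρ f) := by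
  have : IsTrans ι (fun g f : ι => ρ g < ρ f) := ⟨fun a b c h1 h2 => lt_trans h1 h2⟩
  have : Std.Irrefl (fun g f : ι => ρ g < ρ f) := ⟨fun a h => lt_irrefl _ h⟩
  exact Finite.wellFounded_of_trans_of_irrefl _

/-- greedy selection among the items of `A` when the item `f` rings at time `ρ f`: an item is
selected when it rings iff no item meeting it was selected strictly before. -/
noncomputable def sel (A : Finset ι) (ρ : ι → ℝ) : ι → Prop :=
  WellFounded.fix (wf_time ρ) (fun f ih => f ∈ A ∧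
    ∀ g (h : ρ g < ρ f), g ∈ A → ¬ Disjoint (en g) (en f) → ¬ ih g h)

theorem sel_iff (A : Finset ι) (ρ : ι → ℝ) (f : ι) :
    sel en A ρ f ↔ f ∈ A ∧ ∀ g ∈ A, ¬ Disjoint (en g) (en f) → ρ g < ρ f → ¬ sel en A ρ g := by
  unfold sel
  rw [WellFounded.fix_eq]
  constructor
  · rintro ⟨h1, h2⟩
    exact ⟨h1, fun g hg hd hlt => h2 g hlt hg hd⟩
  · rintro ⟨h1, h2⟩
    exact ⟨h1, fun g hlt hg hd => h2 g hg hd hlt⟩

theorem sel_mem {A : Finset ι} {ρ : ι → ℝ} {f : ι} (h : sel en A ρ f) : f ∈ A :=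
  ((sel_iff en A ρ f).1 h).1

/-- the vertex `w` has not been used strictly before time `s` -/
def free (A : Finset ι) (ρ : ι → ℝ) (w : V) (s : ℝ) : Prop :=
  ∀ f ∈ A, w ∈ en f → sel en A ρ f → s ≤ ρ f

theorem free_anti {A : Finset ι} {ρ : ι → ℝ} {w : V} {s s' : ℝ} (hs : s' ≤ s)
    (h : free en A ρ w s) : free en A ρ w s' :=
  fun f hf hw hsel => hs.trans (h f hf hw hsel)

/-- locality: selection before time `s` depends only on the items ringing before `s` -/
theorem sel_congr {A A' : Finset ι} {ρ ρ' : ι → ℝ} (s : ℝ)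
    (h1 : ∀ g, (g ∈ A ∧ ρ g < s) ↔ (g ∈ A' ∧ ρ' g < s))
    (h2 : ∀ g ∈ A, ρ g < s → ρ' g = ρ g) :
    ∀ f, ρ f < s → f ∈ A → (sel en A ρ f ↔ sel en A' ρ' f) := by
  intro f
  induction f using (wf_time ρ).induction with
  | _ f ih =>
    intro hf hfA
    have hf' := (h1 f).1 ⟨hfA, hf⟩
    have hρf := h2 f hfA hf
    rw [sel_iff, sel_iff]
    constructor
    · rintro ⟨_, h⟩
      refine ⟨hf'.1, fun g hg hd hlt => ?_⟩
      have hgs : ρ' g < s := hlt.trans hf'.2
      have hg2 := (h1 g).2 ⟨hg, hgs⟩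
      have hρg := h2 g hg2.1 hg2.2
      have hlt' : ρ g < ρ f := by rw [hρg, hρf] at hlt; exact hlt
      rw [← ih g hlt' hg2.2 hg2.1]
      exact h g hg2.1 hd hlt'
    · rintro ⟨_, h⟩
      refine ⟨hfA, fun g hg hd hlt => ?_⟩
      have hgs : ρ g < s := hlt.trans hf
      have hg2 := (h1 g).1 ⟨hg, hgs⟩
      have hρg := h2 g hg hgs
      have hlt' : ρ' g < ρ' f := by rw [hρg, hρf]; exact hlt
      rw [ih g hlt hgs hg]
      exact h g hg2.1 hd hlt'

/-- locality for an item ringing exactly at the horizon -/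
theorem sel_congr' {A A' : Finset ι} {ρ ρ' : ι → ℝ} (f : ι) (hfA : f ∈ A) (hfA' : f ∈ A')
    (hf : ρ' f = ρ f)
    (h1 : ∀ g, (g ∈ A ∧ ρ g < ρ f) ↔ (g ∈ A' ∧ ρ' g < ρ f))
    (h2 : ∀ g ∈ A, ρ g < ρ f → ρ' g = ρ g) :
    (sel en A ρ f ↔ sel en A' ρ' f) := by
  rw [sel_iff, sel_iff]
  constructor
  · rintro ⟨_, h⟩
    refine ⟨hfA', fun g hg hd hlt => ?_⟩
    rw [hf] at hlt
    have hg2 := (h1 g).2 ⟨hg, hlt⟩
    rw [← sel_congr en (ρ f) h1 h2 g hg2.2 hg2.1]
    exact h g hg2.1 hd hg2.2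
  · rintro ⟨_, h⟩
    refine ⟨hfA, fun g hg hd hlt => ?_⟩
    have hg2 := (h1 g).1 ⟨hg, hlt⟩
    rw [sel_congr en (ρ f) h1 h2 g hlt hg]
    refine h g hg2.1 hd ?_
    rw [hf]; exact hg2.2

theorem free_congr {A A' : Finset ι} {ρ ρ' : ι → ℝ} (s : ℝ)
    (h1 : ∀ g, (g ∈ A ∧ ρ g < s) ↔ (g ∈ A' ∧ ρ' g < s))
    (h2 : ∀ g ∈ A, ρ g < s → ρ' g = ρ g) (w : V) :
    free en A ρ w s ↔ free en A' ρ' w s := by
  constructor
  · intro h f hf hw hsel
    by_contra hlt
    push Not at hlt
    have hf2 := (h1 f).2 ⟨hf, hlt⟩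
    have := h f hf2.1 hw ((sel_congr en s h1 h2 f hf2.2 hf2.1).2 hsel)
    linarith [hf2.2]
  · intro h f hf hw hsel
    by_contra hlt
    push Not at hlt
    have hf2 := (h1 f).1 ⟨hf, hlt⟩
    have := h f hf2.1 hw ((sel_congr en s h1 h2 f hlt hf).1 hsel)
    linarith [hf2.2]

/-- `free` only depends on the ring times of the items of `A` -/
theorem free_congr_on {A : Finset ι} {ρ ρ' : ι → ℝ} (h : ∀ g ∈ A, ρ' g = ρ g) (w : V) (s : ℝ) :
    free en A ρ w s ↔ free en A ρ' w s := by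
  refine free_congr en s (fun g => ?_) (fun g hg _ => h g hg) w
  constructor
  · rintro ⟨h1, h2⟩; exact ⟨h1, by rw [h g h1]; exact h2⟩
  · rintro ⟨h1, h2⟩; exact ⟨h1, by rw [h g h1] at h2; exact h2⟩

/-- an item is selected iff at its ring time all its ends are free for the process without it -/
theorem sel_iff_free {A : Finset ι} {ρ : ι → ℝ} {f : ι} (hf : f ∈ A) :
    sel en A ρ f ↔ ∀ v ∈ en f, free en (A.erase f) ρ v (ρ f) := by
  have h1 : ∀ g, (g ∈ A ∧ ρ g < ρ f) ↔ (g ∈ A.erase f ∧ ρ g < ρ f) := by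
    intro g
    constructor
    · rintro ⟨h1, h2⟩
      refine ⟨Finset.mem_erase.2 ⟨?_, h1⟩, h2⟩
      rintro rfl; exact lt_irrefl _ h2
    · rintro ⟨h1, h2⟩; exact ⟨Finset.mem_of_mem_erase h1, h2⟩
  have h2 : ∀ g ∈ A, ρ g < ρ f → ρ g = ρ g := fun _ _ _ => rfl
  rw [sel_iff]
  constructor
  · rintro ⟨_, h⟩ v hv g hg hvg hsel
    by_contra hlt
    push Not at hlt
    have hgA := Finset.mem_of_mem_erase hg
    refine h g hgA ?_ hlt ((sel_congr en (ρ f) h1 h2 g hlt hgA).2 hsel)
    rw [Finset.not_disjoint_iff]; exact ⟨v, hvg, hv⟩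
  · intro h
    refine ⟨hf, fun g hg hd hlt hsel => ?_⟩
    rw [Finset.not_disjoint_iff] at hd
    obtain ⟨v, hvg, hvf⟩ := hd
    have hgf : g ≠ f := by rintro rfl; exact lt_irrefl _ hlt
    have := h v hvf g (Finset.mem_erase.2 ⟨hgf, hg⟩) hvg
      ((sel_congr en (ρ f) h1 h2 g hlt hg).1 hsel)
    linarith

/-- deletion lemma: if every item of `A` meeting `W` that rings before `s` finds one of its ends
outside `W` already used in the process on the items avoiding `W`, then all vertices of `W` are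
free at time `s`. -/
theorem free_of_block {A : Finset ι} {ρ : ι → ℝ} {W : Finset V} {s : ℝ}
    (h : ∀ g ∈ A, ¬ Disjoint (en g) W → ρ g < s →
      ∃ y ∈ en g \ W, ¬ free en (A.filter fun f => Disjoint (en f) W) ρ y (ρ g)) :
    ∀ w ∈ W, free en A ρ w s := by
  set A' := A.filter fun f => Disjoint (en f) W with hA'
  have key : ∀ g, ρ g < s → g ∈ A →
      ((¬ Disjoint (en g) W → ¬ sel en A ρ g) ∧
        (Disjoint (en g) W → (sel en A ρ g ↔ sel en A' ρ g))) := by
    intro g
    induction g using (wf_time ρ).induction with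
    | _ g ih =>
      intro hgs hgA
      constructor
      · intro hW hsel
        obtain ⟨y, hy, hyf⟩ := h g hgA hW hgs
        unfold free at hyf
        push Not at hyf
        obtain ⟨k, hkA', hyk, hksel, hkt⟩ := hyf
        have hkA : k ∈ A := (Finset.mem_filter.1 hkA').1
        have hkW : Disjoint (en k) W := (Finset.mem_filter.1 hkA').2
        have hk := (ih k hkt (hkt.trans hgs) hkA).2 hkW
        have := ((sel_iff en A ρ g).1 hsel).2 k hkA
          (by rw [Finset.not_disjoint_iff]; exact ⟨y, hyk, (Finset.mem_sdiff.1 hy).1⟩) hkt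
        exact this (hk.2 hksel)
      · intro hW
        rw [sel_iff, sel_iff]
        constructor
        · rintro ⟨_, h3⟩
          refine ⟨Finset.mem_filter.2 ⟨hgA, hW⟩, fun k hk hd hlt => ?_⟩
          have hkA : k ∈ A := (Finset.mem_filter.1 hk).1
          have hkW : Disjoint (en k) W := (Finset.mem_filter.1 hk).2
          rw [← (ih k hlt (hlt.trans hgs) hkA).2 hkW]
          exact h3 k hkA hd hlt
        · rintro ⟨_, h3⟩
          refine ⟨hgA, fun k hk hd hlt => ?_⟩
          by_cases hkW : Disjoint (en k) W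
          · rw [(ih k hlt (hlt.trans hgs) hk).2 hkW]
            exact h3 k (Finset.mem_filter.2 ⟨hk, hkW⟩) hd hlt
          · exact (ih k hlt (hlt.trans hgs) hk).1 hkW
  intro w hw f hf hwf hsel
  by_contra hlt
  push Not at hlt
  refine (key f hlt hf).1 ?_ hsel
  rw [Finset.not_disjoint_iff]; exact ⟨w, hwf, hw⟩

end Greedy

end Pool.Agent.RCRS
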