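import Pool.Agent.RCRS.Link

/-! The laws of the ring times in the schemes satisfy `RingLaw` (MP_73ccd0_lc). -/

set_option linter.unusedSectionVars false

namespace Pool.Agent.RCRS

open MeasureTheory

theorem unif_Iic {β : ℝ} (h1 : β ≤ 1) : unif {c | c ≤ β} = ENNReal.ofReal β := by
  unfold unif
  have hset : {c : ℝ | c ≤ β} = Set.Iic β := rfl
  rw [hset, Measure.restrict_apply measurableSet_Iic]
  have h : (Set.Iic β ∩ Set.Ico (0:ℝ) 1 : Set ℝ) =ᵐ[volume] (Set.Icc 0 β : Set ℝ) := by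
    have h2 : Set.Iic β ∩ Set.Icc (0:ℝ) 1 = Set.Icc 0 β := by
      ext t; simp only [Set.mem_inter_iff, Set.mem_Iic, Set.mem_Icc]
      constructor
      · rintro ⟨a, b, c⟩; exact ⟨b, a⟩
      · rintro ⟨a, b⟩; exact ⟨b, a, b.trans h1⟩
    rw [← h2]
    exact Filter.EventuallyEq.inter (Filter.EventuallyEq.refl _ _) Ico_ae_eq_Icc
  rw [measure_congr h, Real.volume_Icc, sub_zero]

theorem unif_Iio_zero : unif (Set.Iio 0) = 0 := by
  unfold unif
  rw [Measure.restrict_apply measurableSet_Iio]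
  have : Set.Iio (0:ℝ) ∩ Set.Ico 0 1 = ∅ := by
    ext t; simp only [Set.mem_inter_iff, Set.mem_Iio, Set.mem_Ico, Set.mem_empty_iff_false,
      iff_false]
    rintro ⟨a, b, c⟩; linarith
  rw [this]; simp

theorem ae_fst_mem : ∀ᵐ p ∂(unif.prod unif), p.1 ∈ Set.Ico (0:ℝ) 1 := by
  have : ∀ᵐ t ∂unif, t ∈ Set.Ico (0:ℝ) 1 := ae_restrict_mem measurableSet_Ico
  exact Measure.quasiMeasurePreserving_fst.ae this

theorem map_rt_true {b : ℝ → ℝ} (hb : Measurable b) (hb0 : ∀ t, 0 ≤ b t) (hb1 : ∀ t, b t ≤ 1)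
    {B : Set ℝ} (hB : MeasurableSet B) (hBs : B ⊆ Set.Ico 0 1) :
    ((unif.prod unif).map (rt b true)) B = ENNReal.ofReal (∫ t in B, b t) := by
  rw [Measure.map_apply (measurable_rt hb true) hB]
  have h1 : rt b true ⁻¹' B =ᵐ[unif.prod unif] {p : ℝ × ℝ | p.1 ∈ B ∧ p.2 ≤ b p.1} := by
    filter_upwards [ae_fst_mem] with p hp
    refine propext ?_
    show rt b true p ∈ B ↔ (p.1 ∈ B ∧ p.2 ≤ b p.1)
    unfold rt
    constructor
    · intro h
      split_ifs at h with hc
      · exact ⟨h, hc.2⟩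
      · exfalso; have := (hBs h).2; have := hp.1; linarith
    · rintro ⟨ha, hc⟩
      rw [if_pos ⟨rfl, hc⟩]; exact ha
  have hm : MeasurableSet {p : ℝ × ℝ | p.1 ∈ B ∧ p.2 ≤ b p.1} := by
    refine measurableSet_setOfPred.2 (Measurable.and ?_ ?_)
    · exact measurableSet_setOfPred.1 (measurable_fst hB)
    · exact measurableSet_setOfPred.1 (measurableSet_le measurable_snd (hb.comp measurable_fst))
  rw [measure_congr h1, Measure.prod_apply hm]
  have h2 : ∀ t, unif (Prod.mk t ⁻¹' {p : ℝ × ℝ | p.1 ∈ B ∧ p.2 ≤ b p.1}) =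
      B.indicator (fun t => ENNReal.ofReal (b t)) t := by
    intro t
    by_cases ht : t ∈ B
    · rw [Set.indicator_of_mem ht, ← unif_Iic (hb1 t)]
      congr 1
      ext c; simp [ht]
    · rw [Set.indicator_of_notMem ht]
      have : Prod.mk t ⁻¹' {p : ℝ × ℝ | p.1 ∈ B ∧ p.2 ≤ b p.1} = ∅ := by
        ext c; simp [ht]
      rw [this]; simp
  simp_rw [h2]
  rw [lintegral_indicator hB]
  unfold unif
  rw [Measure.restrict_restrict hB, Set.inter_eq_self_of_subset_left hBs]
  have hvol : volume B ≠ ⊤ := by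
    refine ne_top_of_le_ne_top ?_ (measure_mono hBs)
    simp
  have : IsFiniteMeasure (volume.restrict B) := ⟨by simpa using lt_top_iff_ne_top.2 hvol⟩
  have hint : Integrable b (volume.restrict B) := by
    refine Integrable.of_bound hb.aestronglyMeasurable 1 (Filter.Eventually.of_forall fun t => ?_)
    rw [Real.norm_eq_abs, abs_of_nonneg (hb0 t)]; exact hb1 t
  rw [ofReal_integral_eq_lintegral_ofReal hint (Filter.Eventually.of_forall fun t => hb0 t)]

theorem map_rt_false {b : ℝ → ℝ} (hb : Measurable b)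
    {B : Set ℝ} (hB : MeasurableSet B) (hBs : B ⊆ Set.Iio 1) :
    ((unif.prod unif).map (rt b false)) B = 0 := by
  rw [Measure.map_apply (measurable_rt hb false) hB]
  have h1 : rt b false ⁻¹' B =ᵐ[unif.prod unif] (∅ : Set (ℝ × ℝ)) := by
    filter_upwards [ae_fst_mem] with p hp
    refine propext ?_
    show rt b false p ∈ B ↔ False
    unfold rt
    simp only [Bool.false_eq_true, false_and, if_false, iff_false]
    intro h
    have := hBs h
    have := hp.1
    simp only [Set.mem_Iio] at *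
    linarith
  rw [measure_congr h1]; simp

theorem map_rt_neg {b : ℝ → ℝ} (hb : Measurable b) (X : Bool) :
    ((unif.prod unif).map (rt b X)) (Set.Iio 0) = 0 := by
  rw [Measure.map_apply (measurable_rt hb X) measurableSet_Iio]
  have h1 : rt b X ⁻¹' (Set.Iio 0) =ᵐ[unif.prod unif] (∅ : Set (ℝ × ℝ)) := by
    filter_upwards [ae_fst_mem] with p hp
    refine propext ?_
    show rt b X p ∈ Set.Iio 0 ↔ False
    simp only [Set.mem_Iio, iff_false, not_lt]
    exact hp.1.trans (le_rt b X p)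
  rw [measure_congr h1]; simp

/-- the law of the ring time of an item which is active with probability `x` and accepted with
probability `b t` when it arrives at time `t` -/
noncomputable def mixture (x : ℝ) (b : ℝ → ℝ) : Measure ℝ :=
  ENNReal.ofReal x • (unif.prod unif).map (rt b true) +
      ENNReal.ofReal (1 - x) • (unif.prod unif).map (rt b false)

theorem mixture_prob {x : ℝ} (hx0 : 0 ≤ x) (hx1 : x ≤ 1) {b : ℝ → ℝ} (hb : Measurable b) :
    IsProbabilityMeasure (mixture x b) := by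
  refine ⟨?_⟩
  have h1 : ∀ X, ((unif.prod unif).map (rt b X)) Set.univ = 1 := by
    intro X
    rw [Measure.map_apply (measurable_rt hb X) MeasurableSet.univ]; simp
  simp only [mixture, Measure.add_apply, Measure.smul_apply, h1, smul_eq_mul, mul_one]
  rw [← ENNReal.ofReal_add hx0 (by linarith)]
  simp

theorem ringLaw_mixture {x : ℝ} (hx0 : 0 ≤ x) {b h : ℝ → ℝ} (hb : Measurable b)
    (hb0 : ∀ t, 0 ≤ b t) (hb1 : ∀ t, b t ≤ 1) (hh : Measurable h) (hh0 : ∀ t, 0 ≤ h t)
    (hhi : IntegrableOn h (Set.Ico 0 1))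
    (hs : ∀ τ ∈ Set.Icc (0:ℝ) 1, ∫ t in Set.Ico 0 τ, x * b t =
      1 - Real.exp (-∫ t in Set.Ico 0 τ, h t)) :
    RingLaw (mixture x b) (fun t => x * b t) h where
  dens := by
    intro B hB hBs
    unfold Measure.real mixture
    rw [Measure.add_apply, Measure.smul_apply, Measure.smul_apply,
      map_rt_true hb hb0 hb1 hB hBs, map_rt_false hb hB (hBs.trans Set.Ico_subset_Iio_self),
      smul_zero, add_zero, smul_eq_mul, ← ENNReal.ofReal_mul hx0, ENNReal.toReal_ofReal,
      integral_const_mul]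
    exact mul_nonneg hx0 (integral_nonneg fun t => hb0 t)
  neg := by
    unfold mixture
    rw [Measure.add_apply, Measure.smul_apply, Measure.smul_apply, map_rt_neg hb, map_rt_neg hb]
    simp
  surv := hs
  h_meas := hh
  h_nonneg := hh0
  φ_nonneg := fun t => mul_nonneg hx0 (hb0 t)
  h_int := hhi
  φ_int := by
    have : IsFiniteMeasure (volume.restrict (Set.Ico (0:ℝ) 1)) := ⟨by simp⟩
    refine Integrable.of_bound (hb.const_mul x).aestronglyMeasurable x
      (Filter.Eventually.of_forall fun t => ?_)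
    rw [Real.norm_eq_abs, abs_of_nonneg (mul_nonneg hx0 (hb0 t))]
    calc x * b t ≤ x * 1 := mul_le_mul_of_nonneg_left (hb1 t) hx0
      _ = x := mul_one x

/-- an acceptance profile `η` with integral `N` -/
structure Profile (η N : ℝ → ℝ) : Prop where
  meas : Measurable η
  nonneg : ∀ t ∈ Set.Icc (0:ℝ) 1, 0 ≤ η t
  le_one : ∀ t ∈ Set.Icc (0:ℝ) 1, η t ≤ 1
  measN : Measurable N
  cont : ContinuousOn N (Set.Icc 0 1)
  zero : N 0 = 0
  deriv : ∃ S : Set ℝ, S.Countable ∧ ∀ t ∈ Set.Ioo (0:ℝ) 1 \ S, HasDerivAt N (η t) t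

theorem Profile.intOn {η N : ℝ → ℝ} (h : Profile η N) : IntegrableOn η (Set.Icc 0 1) := by
  have hf : IsFiniteMeasure (volume.restrict (Set.Icc (0:ℝ) 1)) := ⟨by simp⟩
  refine Integrable.of_bound h.meas.aestronglyMeasurable 1 ?_
  filter_upwards [ae_restrict_mem measurableSet_Icc] with t ht
  rw [Real.norm_eq_abs, abs_of_nonneg (h.nonneg t ht)]
  exact h.le_one t ht

theorem Profile.integral {η N : ℝ → ℝ} (h : Profile η N) {τ : ℝ} (hτ : τ ∈ Set.Icc (0:ℝ) 1) :
    ∫ t in Set.Ico 0 τ, η t = N τ := by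
  obtain ⟨S, hS, hd⟩ := h.deriv
  have hsub : Set.Icc 0 τ ⊆ Set.Icc (0:ℝ) 1 := Set.Icc_subset_Icc_right hτ.2
  rw [integral_Ico_eq_integral_Ioc, ← intervalIntegral.integral_of_le hτ.1]
  rw [integral_eq_of_hasDerivAt_off_countable_of_le N η hτ.1 hS (h.cont.mono hsub)
    (fun t ht => hd t ⟨⟨ht.1.1, ht.1.2.trans_le hτ.2⟩, ht.2⟩), h.zero, sub_zero]
  rw [intervalIntegrable_iff_integrableOn_Icc_of_le hτ.1]
  exact h.intOn.mono_set hsub

theorem Profile.N_nonneg {η N : ℝ → ℝ} (h : Profile η N) {τ : ℝ} (hτ : τ ∈ Set.Icc (0:ℝ) 1) :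
    0 ≤ N τ := by
  rw [← h.integral hτ]
  refine setIntegral_nonneg measurableSet_Ico fun t ht => ?_
  exact h.nonneg t ⟨ht.1, ht.2.le.trans hτ.2⟩

theorem Profile.N_le {η N : ℝ → ℝ} (h : Profile η N) {τ : ℝ} (hτ : τ ∈ Set.Icc (0:ℝ) 1) :
    N τ ≤ τ := by
  rw [← h.integral hτ]
  have h1 : ∫ t in Set.Ico 0 τ, η t ≤ ∫ t in Set.Ico 0 τ, (1:ℝ) := by
    refine setIntegral_mono_on ?_ (by simp) measurableSet_Ico ?_
    · exact h.intOn.mono_set (Set.Ico_subset_Icc_self.trans (Set.Icc_subset_Icc_right hτ.2))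
    · intro t ht; exact h.le_one t ⟨ht.1, ht.2.le.trans hτ.2⟩
  refine h1.trans ?_
  simp [hτ.1]

theorem Profile.integral_dens {η N : ℝ → ℝ} (h : Profile η N) {x : ℝ} {τ : ℝ}
    (hτ : τ ∈ Set.Icc (0:ℝ) 1) :
    ∫ t in Set.Ico 0 τ, x * (η t * Real.exp (-(x * N t))) = 1 - Real.exp (-(x * N τ)) := by
  obtain ⟨S, hS, hd⟩ := h.deriv
  have hsub : Set.Icc 0 τ ⊆ Set.Icc (0:ℝ) 1 := Set.Icc_subset_Icc_right hτ.2
  rw [integral_Ico_eq_integral_Ioc, ← intervalIntegral.integral_of_le hτ.1]
  have hcont : ContinuousOn (fun t => -Real.exp (-(x * N t))) (Set.Icc 0 τ) :=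
    (Real.continuous_exp.comp_continuousOn ((h.cont.mono hsub).const_smul x).neg).neg
  have hder : ∀ t ∈ Set.Ioo 0 τ \ S, HasDerivAt (fun t => -Real.exp (-(x * N t)))
      (x * (η t * Real.exp (-(x * N t)))) t := by
    intro t ht
    have h1 := hd t ⟨⟨ht.1.1, ht.1.2.trans_le hτ.2⟩, ht.2⟩
    have h1' : HasDerivAt (fun t => -(x * N t)) (-(x * η t)) t := (h1.const_mul x).neg
    have h2 : HasDerivAt (fun t => -Real.exp (-(x * N t)))
        (-(Real.exp (-(x * N t)) * -(x * η t))) t := h1'.exp.neg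
    exact h2.congr_deriv (by ring)
  have hint : IntervalIntegrable (fun t => x * (η t * Real.exp (-(x * N t)))) volume 0 τ := by
    rw [intervalIntegrable_iff_integrableOn_Icc_of_le hτ.1]
    have hc : ContinuousOn (fun t => x * Real.exp (-(x * N t))) (Set.Icc 0 τ) :=
      continuousOn_const.mul
        (Real.continuous_exp.comp_continuousOn ((h.cont.mono hsub).const_smul x).neg)
    have := (h.intOn.mono_set hsub).continuousOn_mul hc isCompact_Icc
    refine this.congr_fun (fun t _ => ?_) measurableSet_Icc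
    simp only []
    ring
  rw [integral_eq_of_hasDerivAt_off_countable_of_le _ _ hτ.1 hS hcont hder hint, h.zero]
  simp
  ring

/-- truncation to the unit interval -/
noncomputable def cut (f : ℝ → ℝ) : ℝ → ℝ := (Set.Ico (0:ℝ) 1).indicator f

theorem cut_of_mem {f : ℝ → ℝ} {t : ℝ} (ht : t ∈ Set.Ico (0:ℝ) 1) : cut f t = f t :=
  Set.indicator_of_mem ht f

theorem integral_cut (f : ℝ → ℝ) {τ : ℝ} (hτ : τ ≤ 1) :
    ∫ t in Set.Ico 0 τ, cut f t = ∫ t in Set.Ico 0 τ, f t :=
  setIntegral_congr_fun measurableSet_Ico fun t ht => cut_of_mem ⟨ht.1, ht.2.trans_le hτ⟩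

theorem measurable_cut {f : ℝ → ℝ} (hf : Measurable f) : Measurable (cut f) :=
  hf.indicator measurableSet_Ico

/-- ring law of an item of weight `x` accepted with probability `η exp (-x N)` -/
theorem ringLaw_edge {η N : ℝ → ℝ} (hP : Profile η N) {x : ℝ} (hx0 : 0 ≤ x) :
    RingLaw (mixture x (cut fun t => η t * Real.exp (-(x * N t))))
      (fun t => x * cut (fun t => η t * Real.exp (-(x * N t))) t)
      (cut fun t => x * η t) := by
  have hm : Measurable fun t => η t * Real.exp (-(x * N t)) :=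
    hP.meas.mul (Real.measurable_exp.comp (hP.measN.const_mul x).neg)
  have h0 : ∀ t, 0 ≤ cut (fun t => η t * Real.exp (-(x * N t))) t := by
    intro t
    unfold cut
    by_cases ht : t ∈ Set.Ico (0:ℝ) 1
    · rw [Set.indicator_of_mem ht]
      exact mul_nonneg (hP.nonneg t (Set.Ico_subset_Icc_self ht)) (Real.exp_pos _).le
    · rw [Set.indicator_of_notMem ht]
  have h1 : ∀ t, cut (fun t => η t * Real.exp (-(x * N t))) t ≤ 1 := by
    intro t
    unfold cut
    by_cases ht : t ∈ Set.Ico (0:ℝ) 1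
    · rw [Set.indicator_of_mem ht]
      have ht' := Set.Ico_subset_Icc_self ht
      have h2 : Real.exp (-(x * N t)) ≤ 1 := by
        apply Real.exp_le_one_iff.2
        have := mul_nonneg hx0 (hP.N_nonneg ht')
        linarith
      exact mul_le_one₀ (hP.le_one t ht') (Real.exp_pos _).le h2
    · rw [Set.indicator_of_notMem ht]; norm_num
  refine ringLaw_mixture hx0 (measurable_cut hm) h0 h1 (measurable_cut (hP.meas.const_mul x))
    ?_ ?_ ?_
  · intro t
    unfold cut
    by_cases ht : t ∈ Set.Ico (0:ℝ) 1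
    · rw [Set.indicator_of_mem ht]
      exact mul_nonneg hx0 (hP.nonneg t (Set.Ico_subset_Icc_self ht))
    · rw [Set.indicator_of_notMem ht]
  · have h2 : IntegrableOn (fun t => x * η t) (Set.Ico 0 1) :=
      (hP.intOn.mono_set Set.Ico_subset_Icc_self).const_mul x
    refine h2.congr_fun (fun t ht => ?_) measurableSet_Ico
    rw [cut_of_mem ht]
  · intro τ hτ
    rw [integral_cut _ hτ.2]
    have h2 : ∫ t in Set.Ico 0 τ, x * cut (fun t => η t * Real.exp (-(x * N t))) t =
        ∫ t in Set.Ico 0 τ, x * (η t * Real.exp (-(x * N t))) :=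
      setIntegral_congr_fun measurableSet_Ico fun t ht => by
        rw [cut_of_mem ⟨ht.1, ht.2.trans_le hτ.2⟩]
    rw [h2, hP.integral_dens hτ, integral_const_mul, hP.integral hτ]

/-- ring law of a loop of weight `x ≤ 1`, realised without external state -/
theorem ringLaw_loop {η N : ℝ → ℝ} (hP : Profile η N) {x : ℝ} (hx0 : 0 ≤ x) (hx1 : x ≤ 1) :
    RingLaw (mixture 1 (cut fun t => x * (η t * Real.exp (-(x * N t)))))
      (fun t => 1 * cut (fun t => x * (η t * Real.exp (-(x * N t)))) t)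
      (cut fun t => x * η t) := by
  have hm : Measurable fun t => x * (η t * Real.exp (-(x * N t))) :=
    (hP.meas.mul (Real.measurable_exp.comp (hP.measN.const_mul x).neg)).const_mul x
  have h0 : ∀ t, 0 ≤ cut (fun t => x * (η t * Real.exp (-(x * N t)))) t := by
    intro t
    unfold cut
    by_cases ht : t ∈ Set.Ico (0:ℝ) 1
    · rw [Set.indicator_of_mem ht]
      exact mul_nonneg hx0 (mul_nonneg (hP.nonneg t (Set.Ico_subset_Icc_self ht))
        (Real.exp_pos _).le)
    · rw [Set.indicator_of_notMem ht]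
  have h1 : ∀ t, cut (fun t => x * (η t * Real.exp (-(x * N t)))) t ≤ 1 := by
    intro t
    unfold cut
    by_cases ht : t ∈ Set.Ico (0:ℝ) 1
    · rw [Set.indicator_of_mem ht]
      have ht' := Set.Ico_subset_Icc_self ht
      have h2 : Real.exp (-(x * N t)) ≤ 1 := by
        apply Real.exp_le_one_iff.2
        have := mul_nonneg hx0 (hP.N_nonneg ht')
        linarith
      exact mul_le_one₀ hx1 (mul_nonneg (hP.nonneg t ht') (Real.exp_pos _).le)
        (mul_le_one₀ (hP.le_one t ht') (Real.exp_pos _).le h2)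
    · rw [Set.indicator_of_notMem ht]; norm_num
  refine ringLaw_mixture zero_le_one (measurable_cut hm) h0 h1
    (measurable_cut (hP.meas.const_mul x)) ?_ ?_ ?_
  · intro t
    unfold cut
    by_cases ht : t ∈ Set.Ico (0:ℝ) 1
    · rw [Set.indicator_of_mem ht]
      exact mul_nonneg hx0 (hP.nonneg t (Set.Ico_subset_Icc_self ht))
    · rw [Set.indicator_of_notMem ht]
  · have h2 : IntegrableOn (fun t => x * η t) (Set.Ico 0 1) :=
      (hP.intOn.mono_set Set.Ico_subset_Icc_self).const_mul x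
    refine h2.congr_fun (fun t ht => ?_) measurableSet_Ico
    rw [cut_of_mem ht]
  · intro τ hτ
    rw [integral_cut _ hτ.2]
    have h2 : ∫ t in Set.Ico 0 τ, 1 * cut (fun t => x * (η t * Real.exp (-(x * N t)))) t =
        ∫ t in Set.Ico 0 τ, x * (η t * Real.exp (-(x * N t))) :=
      setIntegral_congr_fun measurableSet_Ico fun t ht => by
        simp only [one_mul]
        rw [cut_of_mem ⟨ht.1, ht.2.trans_le hτ.2⟩]
    rw [h2, hP.integral_dens hτ, integral_const_mul, hP.integral hτ]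

end Pool.Agent.RCRS
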