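import Pool.Agent.RCRS.Ring

/-! Two-level analysis of the greedy ring process (MP_73ccd0_lc). -/

set_option linter.unusedSectionVars false

namespace Pool.Agent.RCRS

open MeasureTheory

section Level

variable {ι V : Type*} [Fintype ι] [DecidableEq ι] [Fintype V] [DecidableEq V] (en : ι → Finset V)
variable (ν : ι → Measure ℝ) [∀ i, IsProbabilityMeasure (ν i)] (φ h : ι → ℝ → ℝ) (x : ι → ℝ)

theorem pf_nonneg (A : Finset ι) (W : Finset V) (s : ℝ) : 0 ≤ pf en ν A W s := measureReal_nonneg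

theorem pf_le_one (A : Finset ι) (W : Finset V) (s : ℝ) : pf en ν A W s ≤ 1 := by
  unfold pf; exact measureReal_le_one

theorem pf_anti (A : Finset ι) (W : Finset V) : Antitone (pf en ν A W) := by
  intro s t hst
  refine measureReal_mono ?_ (measure_ne_top _ _)
  intro ρ hρ w hw
  exact free_anti en hst (hρ w hw)

theorem measurable_pf (A : Finset ι) (W : Finset V) : Measurable (pf en ν A W) :=
  (pf_anti en ν A W).measurable

theorem integrableOn_mul_pf {f : ℝ → ℝ} {s : ℝ} (hf : IntegrableOn f (Set.Ico 0 s))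
    (A : Finset ι) (W : Finset V) :
    IntegrableOn (fun t => f t * pf en ν A W t) (Set.Ico 0 s) := by
  refine Integrable.mul_bdd (c := 1) hf (measurable_pf en ν A W).aestronglyMeasurable
    (Filter.Eventually.of_forall fun t => ?_)
  rw [Real.norm_eq_abs, abs_of_nonneg (pf_nonneg en ν A W t)]
  exact pf_le_one en ν A W t

/-- crude lower bound: all neighbours are assumed to be free all the time -/
theorem pf_ge_crude (hL : ∀ i, RingLaw (ν i) (φ i) (h i))
    (hx : ∀ g, ∀ t ∈ Set.Icc (0:ℝ) 1, ∫ q in Set.Ico 0 t, h g q ≤ x g * t)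
    (A : Finset ι) (W : Finset V) {s : ℝ} (hs : 0 ≤ s) (hs1 : s ≤ 1) :
    Real.exp (-((∑ g ∈ A.filter (fun g => ¬ Disjoint (en g) W), x g) * s)) ≤
      pf en ν A W s := by
  refine le_trans ?_ (pf_ge en ν φ h hL A W hs hs1)
  refine Real.exp_le_exp.2 (neg_le_neg ?_)
  rw [Finset.sum_mul]
  refine Finset.sum_le_sum fun g _ => ?_
  refine le_trans ?_ (hx g s ⟨hs, hs1⟩)
  have hi : IntegrableOn (h g) (Set.Ico 0 s) :=
    (hL g).h_int.mono_set (Set.Ico_subset_Ico_right hs1)
  refine setIntegral_mono_on (integrableOn_mul_pf en ν hi _ _) hi measurableSet_Ico fun t _ => ?_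
  exact mul_le_of_le_one_right ((hL g).h_nonneg t) (pf_le_one en ν _ _ _)

/-- total weight of the items meeting `W` is at most the sum of the weights at the vertices -/
theorem mass_touch (hx0 : ∀ g, 0 ≤ x g) (A : Finset ι) (W : Finset V) :
    ∑ g ∈ A.filter (fun g => ¬ Disjoint (en g) W), x g ≤
      ∑ v ∈ W, ∑ g ∈ A.filter (fun g => v ∈ en g), x g := by
  have h1 : ∑ v ∈ W, ∑ g ∈ A.filter (fun g => v ∈ en g), x g =
      ∑ g ∈ A, ∑ v ∈ W, if v ∈ en g then x g else 0 := by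
    rw [Finset.sum_comm]
    refine Finset.sum_congr rfl fun v _ => ?_
    rw [Finset.sum_filter]
  rw [h1, Finset.sum_filter]
  refine Finset.sum_le_sum fun g _ => ?_
  by_cases hd : Disjoint (en g) W
  · rw [if_neg (not_not.2 hd)]
    exact Finset.sum_nonneg fun w _ => by split_ifs; exacts [hx0 g, le_rfl]
  · rw [if_pos hd]
    rw [Finset.not_disjoint_iff] at hd
    obtain ⟨v, hv, hvW⟩ := hd
    have := Finset.single_le_sum (f := fun v => if v ∈ en g then x g else 0)
      (fun w _ => by split_ifs; exacts [hx0 g, le_rfl]) hvW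
    simpa [hv] using this

theorem mass_erase (A : Finset ι) (f : ι) (hf : f ∈ A) (v : V) (hv : v ∈ en f) :
    ∑ g ∈ (A.erase f).filter (fun g => v ∈ en g), x g =
      (∑ g ∈ A.filter (fun g => v ∈ en g), x g) - x f := by
  have hf' : f ∈ A.filter (fun g => v ∈ en g) := Finset.mem_filter.2 ⟨hf, hv⟩
  have : (A.erase f).filter (fun g => v ∈ en g) = (A.filter (fun g => v ∈ en g)).erase f := by
    ext g; simp only [Finset.mem_filter, Finset.mem_erase]; tauto
  rw [this, ← Finset.sum_erase_add _ _ hf']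
  ring

/-- level one: upper bound for the probability that a vertex is free, from the crude lower
bound at the next level -/
theorem level_one (hL : ∀ i, RingLaw (ν i) (φ i) (h i))
    (hx0 : ∀ g, 0 ≤ x g)
    (hx : ∀ g, ∀ t ∈ Set.Icc (0:ℝ) 1, ∫ q in Set.Ico 0 t, h g q ≤ x g * t)
    (A : Finset ι) (y : V) (m : ℝ)
    (hm : ∑ g ∈ A.filter (fun g => y ∈ en g), x g = 1 - m)
    (hmass : ∀ v, ∑ g ∈ A.filter (fun g => v ∈ en g), x g ≤ 1)
    (κ : ℝ → ℝ) (hκi : IntegrableOn κ (Set.Ico 0 1))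
    (hκ : ∀ f ∈ A, y ∈ en f → ∀ t ∈ Set.Ico (0:ℝ) 1,
      x f * κ t ≤ φ f t * Real.exp (-((((en f).card - m) - (en f).card * x f) * t)))
    {s : ℝ} (hs1 : s ≤ 1) :
    pf en ν A {y} s ≤ 1 - (1 - m) * ∫ t in Set.Ico 0 s, κ t := by
  refine (pf_le en ν φ h hL A y hs1).trans ?_
  rw [← hm, Finset.sum_mul]
  refine sub_le_sub_left (Finset.sum_le_sum fun f hf => ?_) 1
  have hfA := (Finset.mem_filter.1 hf).1
  have hyf := (Finset.mem_filter.1 hf).2
  rw [← integral_const_mul]
  have hφi : IntegrableOn (φ f) (Set.Ico 0 s) :=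
    (hL f).φ_int.mono_set (Set.Ico_subset_Ico_right hs1)
  refine setIntegral_mono_on ((hκi.mono_set (Set.Ico_subset_Ico_right hs1)).const_mul (x f))
    (integrableOn_mul_pf en ν hφi _ _) measurableSet_Ico fun t ht => ?_
  have ht1 : t ∈ Set.Ico (0:ℝ) 1 := ⟨ht.1, ht.2.trans_le hs1⟩
  refine (hκ f hfA hyf t ht1).trans ?_
  refine mul_le_mul_of_nonneg_left ?_ ((hL f).φ_nonneg t)
  refine le_trans ?_ (pf_ge_crude en ν φ h x hL hx (A.erase f) (en f) ht1.1 ht1.2.le)
  refine Real.exp_le_exp.2 (neg_le_neg (mul_le_mul_of_nonneg_right ?_ ht1.1))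
  refine (mass_touch en x hx0 (A.erase f) (en f)).trans ?_
  have h1 : ∑ v ∈ en f, ∑ g ∈ (A.erase f).filter (fun g => v ∈ en g), x g =
      ∑ v ∈ en f, ((∑ g ∈ A.filter (fun g => v ∈ en g), x g) - x f) :=
    Finset.sum_congr rfl fun v hv => mass_erase en x A f hfA v hv
  rw [h1, Finset.sum_sub_distrib, Finset.sum_const, nsmul_eq_mul]
  refine sub_le_sub_right ?_ _
  rw [← Finset.add_sum_erase _ _ hyf, hm]
  have h2 : ∑ v ∈ (en f).erase y, ∑ g ∈ A.filter (fun g => v ∈ en g), x g ≤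
      ∑ v ∈ (en f).erase y, (1:ℝ) := Finset.sum_le_sum fun v _ => hmass v
  rw [Finset.sum_const, nsmul_eq_mul, mul_one, Finset.card_erase_of_mem hyf] at h2
  have h3 : 1 ≤ (en f).card := Finset.card_pos.2 ⟨y, hyf⟩
  rw [Nat.cast_sub h3] at h2
  push_cast at h2
  linarith

/-- level zero: lower bound for the probability that `e` is selected -/
theorem level_zero (hL : ∀ i, RingLaw (ν i) (φ i) (h i)) (e : ι) (Ψ : ℝ → ℝ)
    (hΨi : IntegrableOn (fun t => φ e t * Real.exp (-Ψ t)) (Set.Ico 0 1))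
    (hΨ : ∀ t ∈ Set.Ico (0:ℝ) 1,
      ∑ g ∈ (Finset.univ.erase e).filter (fun g => ¬ Disjoint (en g) (en e)),
        ∫ q in Set.Ico 0 t, h g q * pf en ν
          ((Finset.univ.erase e).filter fun f => Disjoint (en f) (en e)) (en g \ en e) q ≤ Ψ t) :
    ∫ t in Set.Ico 0 1, φ e t * Real.exp (-Ψ t) ≤
      (Measure.pi ν).real {ρ | sel en Finset.univ ρ e ∧ ρ e < 1} := by
  rw [prob_sel en ν φ h hL Finset.univ e (Finset.mem_univ e) le_rfl]
  refine setIntegral_mono_on hΨi (integrableOn_mul_pf en ν (hL e).φ_int _ _)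
    measurableSet_Ico fun t ht => ?_
  refine mul_le_mul_of_nonneg_left ?_ ((hL e).φ_nonneg t)
  refine le_trans ?_ (pf_ge en ν φ h hL (Finset.univ.erase e) (en e) ht.1 ht.2.le)
  exact Real.exp_le_exp.2 (neg_le_neg (hΨ t ht))

end Level

end Pool.Agent.RCRS
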