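import Pool.Agent.RCRS.Greedy

/-! Ring processes with independent ring times: product formulas (F1) and (F2) for the
probabilities that vertices are free (MP_73ccd0_lc). -/

set_option linter.unusedSectionVars false

namespace Pool.Agent.RCRS

open MeasureTheory

section Meas

variable {ι V : Type*} [Fintype ι] [DecidableEq ι] [DecidableEq V] (en : ι → Finset V)

/-- finite-depth unfolding of `sel` -/
def selN (A : Finset ι) : ℕ → (ι → ℝ) → ι → Prop
  | 0, _, _ => False
  | n + 1, ρ, f => f ∈ A ∧
      ∀ g, g ∈ A → ¬ Disjoint (en g) (en f) → ρ g < ρ f → ¬ selN A n ρ g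

theorem sel_iff_selN (A : Finset ι) (ρ : ι → ℝ) (n : ℕ) :
    ∀ f, (Finset.univ.filter fun g => ρ g < ρ f).card < n →
      (sel en A ρ f ↔ selN en A n ρ f) := by
  induction n with
  | zero => intro f h; omega
  | succ n ih =>
    intro f hf
    rw [sel_iff]
    simp only [selN]
    have key : ∀ g, ρ g < ρ f → (sel en A ρ g ↔ selN en A n ρ g) := by
      intro g hg
      apply ih
      refine lt_of_lt_of_le (Finset.card_lt_card ?_) (Nat.lt_succ_iff.1 hf)
      rw [Finset.ssubset_iff_of_subset]
      · exact ⟨g, by simp [hg], by simp⟩
      · intro k hk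
        simp only [Finset.mem_filter, Finset.mem_univ, true_and] at hk ⊢
        exact hk.trans hg
    constructor
    · rintro ⟨h1, h2⟩
      exact ⟨h1, fun g hg hd hlt => by rw [← key g hlt]; exact h2 g hg hd hlt⟩
    · rintro ⟨h1, h2⟩
      exact ⟨h1, fun g hg hd hlt => by rw [key g hlt]; exact h2 g hg hd hlt⟩

theorem measurable_selN (A : Finset ι) (n : ℕ) :
    ∀ f, Measurable fun ρ : ι → ℝ => selN en A n ρ f := by
  induction n with
  | zero => intro f; simp only [selN]; exact measurable_const
  | succ n ih =>
    intro f
    simp only [selN]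
    refine measurable_const.and (Measurable.forall fun g => ?_)
    refine measurable_const.imp (measurable_const.imp (Measurable.imp ?_ (ih g).not))
    exact measurableSet_setOfPred.1 (measurableSet_lt (measurable_pi_apply g) (measurable_pi_apply f))

theorem measurable_sel (A : Finset ι) (f : ι) : Measurable fun ρ : ι → ℝ => sel en A ρ f := by
  have : (fun ρ : ι → ℝ => sel en A ρ f) = fun ρ => selN en A (Fintype.card ι + 1) ρ f := by
    funext ρ
    rw [sel_iff_selN en A ρ (Fintype.card ι + 1) f]
    exact Nat.lt_succ_iff.2 (Finset.card_le_univ _)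
  rw [this]
  exact measurable_selN en A _ f

theorem measurable_free (A : Finset ι) (w : V) :
    Measurable fun p : (ι → ℝ) × ℝ => free en A p.1 w p.2 := by
  unfold free
  refine Measurable.forall fun f => ?_
  refine measurable_const.imp (measurable_const.imp (Measurable.imp ?_ ?_))
  · exact (measurable_sel en A f).comp measurable_fst
  · exact measurableSet_setOfPred.1 (measurableSet_le measurable_snd
      ((measurable_pi_apply f).comp measurable_fst))

theorem measurable_free_right (A : Finset ι) (w : V) (s : ℝ) :
    Measurable fun ρ : ι → ℝ => free en A ρ w s :=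
  (measurable_free en A w).comp (measurable_id.prodMk measurable_const)

end Meas

/-- replace the coordinates in `B` by those of a second vector -/
def mix {ι : Type*} [DecidableEq ι] {α : Type*} (B : Finset ι) (p : (ι → α) × (ι → α)) : ι → α :=
  fun i => if i ∈ B then p.2 i else p.1 i

section Mix

variable {ι : Type*} [Fintype ι] [DecidableEq ι] {α : Type*} [MeasurableSpace α]

theorem measurable_mix (B : Finset ι) : Measurable (mix (α := α) B) := by
  refine measurable_pi_lambda _ fun i => ?_
  unfold mix
  by_cases h : i ∈ B
  · simp only [h, if_true]; exact (measurable_pi_apply i).comp measurable_snd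
  · simp only [h, if_false]; exact (measurable_pi_apply i).comp measurable_fst

variable (ν : ι → Measure α) [∀ i, IsProbabilityMeasure (ν i)]

theorem measurePreserving_mix (B : Finset ι) :
    MeasurePreserving (mix (α := α) B) ((Measure.pi ν).prod (Measure.pi ν)) (Measure.pi ν) := by
  refine ⟨measurable_mix B, ?_⟩
  symm
  refine Measure.pi_eq fun s hs => ?_
  rw [Measure.map_apply (measurable_mix B) (MeasurableSet.univ_pi hs)]
  have : mix B ⁻¹' Set.univ.pi s =
      (Set.univ.pi fun i => if i ∈ B then Set.univ else s i) ×ˢ
        (Set.univ.pi fun i => if i ∈ B then s i else Set.univ) := by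
    ext p
    simp only [Set.mem_preimage, Set.mem_pi, Set.mem_univ, true_implies, Set.mem_prod, mix]
    constructor
    · intro h
      refine ⟨fun i => ?_, fun i => ?_⟩
      · by_cases hi : i ∈ B
        · simp [hi]
        · have := h i; simpa [hi] using this
      · by_cases hi : i ∈ B
        · have := h i; simpa [hi] using this
        · simp [hi]
    · rintro ⟨h1, h2⟩ i
      by_cases hi : i ∈ B
      · have := h2 i; simpa [hi] using this
      · have := h1 i; simpa [hi] using this
  rw [this, Measure.prod_prod, Measure.pi_pi, Measure.pi_pi, ← Finset.prod_mul_distrib]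
  refine Finset.prod_congr rfl fun i _ => ?_
  by_cases hi : i ∈ B <;> simp [hi]

theorem real_eq_integral_mix (B : Finset ι) (E : Set (ι → α)) (hE : MeasurableSet E) :
    (Measure.pi ν).real E = ∫ ρ, (Measure.pi ν).real {τ | mix B (ρ, τ) ∈ E} ∂(Measure.pi ν) := by
  have h1 : (Measure.pi ν) E = ∫⁻ ρ, (Measure.pi ν) {τ | mix B (ρ, τ) ∈ E} ∂(Measure.pi ν) := by
    rw [← (measurePreserving_mix ν B).measure_preimage hE.nullMeasurableSet,
      Measure.prod_apply ((measurable_mix B) hE)]
    rfl
  have hm : Measurable fun ρ => (Measure.pi ν) {τ | mix B (ρ, τ) ∈ E} :=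
    measurable_measure_prodMk_left ((measurable_mix B) hE)
  unfold Measure.real
  rw [h1, integral_toReal hm.aemeasurable]
  exact Filter.Eventually.of_forall fun ρ => measure_lt_top _ _

theorem pi_real_box (B : Finset ι) (K : ι → Set α) :
    (Measure.pi ν).real {τ | ∀ g ∈ B, τ g ∈ K g} = ∏ g ∈ B, (ν g).real (K g) := by
  have : {τ : ι → α | ∀ g ∈ B, τ g ∈ K g} =
      Set.univ.pi fun i => if i ∈ B then K i else Set.univ := by
    ext τ
    simp only [Set.mem_ofPred_eq, Set.mem_pi, Set.mem_univ, true_implies]
    constructor
    · intro h i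
      by_cases hi : i ∈ B
      · simp [hi, h i hi]
      · simp [hi]
    · intro h i hi
      have := h i; simpa [hi] using this
  rw [this]
  unfold Measure.real
  rw [Measure.pi_pi, ENNReal.toReal_prod]
  rw [← Finset.prod_subset (Finset.subset_univ B)]
  · exact Finset.prod_congr rfl fun i hi => by simp [hi]
  · intro i _ hi; simp [hi]

end Mix

end Pool.Agent.RCRS
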