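import Pool.Agent.RCRS.Meas

/-! Ring laws with densities and the two basic inequalities (F1), (F2) for the greedy process
(MP_73ccd0_lc). -/

set_option linter.unusedSectionVars false

namespace Pool.Agent.RCRS

open MeasureTheory

/-- the law `ν` of a ring time: on `[0,1)` it has density `φ`, nothing below `0`, and the
survival probability is `exp (- ∫ h)` -/
structure RingLaw (ν : Measure ℝ) (φ h : ℝ → ℝ) : Prop where
  dens : ∀ B, MeasurableSet B → B ⊆ Set.Ico 0 1 → ν.real B = ∫ t in B, φ t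
  neg : ν (Set.Iio 0) = 0
  surv : ∀ τ ∈ Set.Icc (0:ℝ) 1, ∫ t in Set.Ico 0 τ, φ t = 1 - Real.exp (-∫ t in Set.Ico 0 τ, h t)
  h_meas : Measurable h
  h_nonneg : ∀ t, 0 ≤ h t
  φ_nonneg : ∀ t, 0 ≤ φ t
  h_int : IntegrableOn h (Set.Ico 0 1)
  φ_int : IntegrableOn φ (Set.Ico 0 1)

/-- a measurable down-closed subset of `[0,s)` is an interval up to a null set -/
theorem exists_ae_Ico {s : ℝ} (hs : 0 ≤ s) (D : Set ℝ) (hD : D ⊆ Set.Ico 0 s)
    (hdc : ∀ t ∈ D, ∀ t', 0 ≤ t' → t' ≤ t → t' ∈ D) :
    ∃ τ ∈ Set.Icc (0:ℝ) s, D =ᵐ[volume] Set.Ico 0 τ := by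
  rcases Set.eq_empty_or_nonempty D with h | h
  · exact ⟨0, ⟨le_refl _, hs⟩, by rw [h]; simp⟩
  · have hbdd : BddAbove D := ⟨s, fun x hx => (hD hx).2.le⟩
    refine ⟨sSup D, ⟨?_, ?_⟩, ?_⟩
    · obtain ⟨x, hx⟩ := h
      exact (hD hx).1.trans (le_csSup hbdd hx)
    · exact csSup_le h fun x hx => (hD hx).2.le
    · have h1 : Set.Ico 0 (sSup D) ⊆ D := by
        intro t ht
        obtain ⟨x, hx, hxt⟩ := exists_lt_of_lt_csSup h ht.2
        exact hdc x hx t ht.1 hxt.le
      have h2 : D ⊆ Set.Icc 0 (sSup D) := fun x hx => ⟨(hD hx).1, le_csSup hbdd hx⟩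
      refine (Filter.EventuallyLE.antisymm ?_ ?_)
      · have h3 : D ≤ᵐ[volume] Set.Icc 0 (sSup D) :=
          Filter.Eventually.of_forall fun x hx => h2 hx
        exact Filter.EventuallyLE.trans h3 (Ico_ae_eq_Icc (μ := volume)).symm.le
      · refine Filter.Eventually.of_forall ?_
        intro x hx; exact h1 hx

theorem RingLaw.real_downclosed {ν : Measure ℝ} {φ h : ℝ → ℝ} (L : RingLaw ν φ h) {s : ℝ}
    (hs : 0 ≤ s) (hs1 : s ≤ 1) (D : Set ℝ) (hDm : MeasurableSet D) (hD : D ⊆ Set.Ico 0 s)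
    (hdc : ∀ t ∈ D, ∀ t', 0 ≤ t' → t' ≤ t → t' ∈ D) :
    ν.real D = 1 - Real.exp (-∫ t in D, h t) := by
  obtain ⟨τ, hτ, hτD⟩ := exists_ae_Ico hs D hD hdc
  rw [L.dens D hDm (hD.trans (Set.Ico_subset_Ico_right hs1)),
    setIntegral_congr_set hτD, setIntegral_congr_set hτD]
  exact L.surv τ ⟨hτ.1, hτ.2.trans hs1⟩

section Fub

variable {Ω : Type*} [MeasurableSpace Ω] (P : Measure Ω) [IsProbabilityMeasure P]

/-- Fubini for a time integral of a random set -/
theorem fubini_ind (h : ℝ → ℝ) (s : ℝ) (hh : IntegrableOn h (Set.Ico 0 s))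
    (Q : Ω × ℝ → Prop) (hQ : Measurable Q) :
    ∫ ρ, (∫ t in Set.Ico 0 s ∩ {t | Q (ρ, t)}, h t) ∂P =
      ∫ t in Set.Ico 0 s, h t * P.real {ρ | Q (ρ, t)} := by
  have hQs : MeasurableSet {p : Ω × ℝ | Q p} := measurableSet_setOfPred.2 hQ
  have hint : Integrable (Function.uncurry fun (ρ : Ω) (t : ℝ) =>
      Set.indicator {p : Ω × ℝ | Q p} (fun p => h p.2) (ρ, t))
      (P.prod (volume.restrict (Set.Ico 0 s))) := by
    have h1 : Integrable (fun p : Ω × ℝ => h p.2) (P.prod (volume.restrict (Set.Ico 0 s))) := by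
      have := (Integrable.mul_prod (μ := P) (ν := volume.restrict (Set.Ico 0 s))
        (f := fun _ : Ω => (1:ℝ)) (g := h) (integrable_const _) hh)
      simpa using this
    exact h1.indicator hQs
  have hL : ∀ ρ, (∫ t in Set.Ico 0 s ∩ {t | Q (ρ, t)}, h t) =
      ∫ t in Set.Ico 0 s, Set.indicator {p : Ω × ℝ | Q p} (fun p => h p.2) (ρ, t) := by
    intro ρ
    have hm : MeasurableSet {t | Q (ρ, t)} :=
      measurableSet_setOfPred.2 (hQ.comp measurable_prodMk_left)
    rw [Set.inter_comm, ← Measure.restrict_restrict hm, ← integral_indicator hm]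
    rfl
  simp_rw [hL]
  rw [integral_integral_swap hint]
  refine integral_congr_ae (Filter.Eventually.of_forall fun t => ?_)
  have hm : MeasurableSet {ρ | Q (ρ, t)} :=
    measurableSet_setOfPred.2 (hQ.comp measurable_prodMk_right)
  have : (fun ρ => Set.indicator {p : Ω × ℝ | Q p} (fun p => h p.2) (ρ, t)) =
      Set.indicator {ρ | Q (ρ, t)} (fun _ => h t) := by
    funext ρ; rfl
  simp only [this]
  rw [integral_indicator hm, setIntegral_const, smul_eq_mul, mul_comm]

theorem measurable_inner (h : ℝ → ℝ) (hm : Measurable h) (s : ℝ)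
    (Q : Ω × ℝ → Prop) (hQ : Measurable Q) :
    Measurable fun ρ => (∫ t in Set.Ico 0 s ∩ {t | Q (ρ, t)}, h t) := by
  have hQs : MeasurableSet {p : Ω × ℝ | Q p} := measurableSet_setOfPred.2 hQ
  have hL : (fun ρ => ∫ t in Set.Ico 0 s ∩ {t | Q (ρ, t)}, h t) =
      fun ρ => ∫ t in Set.Ico 0 s, Set.indicator {p : Ω × ℝ | Q p} (fun p => h p.2) (ρ, t) := by
    funext ρ
    have hm : MeasurableSet {t | Q (ρ, t)} :=
      measurableSet_setOfPred.2 (hQ.comp measurable_prodMk_left)
    rw [Set.inter_comm, ← Measure.restrict_restrict hm, ← integral_indicator hm]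
    rfl
  rw [hL]
  have : StronglyMeasurable (Function.uncurry fun (ρ : Ω) (t : ℝ) =>
      Set.indicator {p : Ω × ℝ | Q p} (fun p => h p.2) (ρ, t)) := by
    exact ((hm.comp measurable_snd).indicator hQs).stronglyMeasurable
  exact (this.integral_prod_right (ν := volume.restrict (Set.Ico 0 s))).measurable

end Fub

/-- exponential Jensen inequality -/
theorem jensen_exp {Ω : Type*} [MeasurableSpace Ω] (P : Measure Ω) [IsProbabilityMeasure P]
    (X : Ω → ℝ) (hX : Measurable X) (C : ℝ) (h0 : ∀ ω, 0 ≤ X ω) (hC : ∀ ω, X ω ≤ C) :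
    Real.exp (-∫ ω, X ω ∂P) ≤ ∫ ω, Real.exp (-X ω) ∂P := by
  have hXi : Integrable X P := by
    refine Integrable.of_bound hX.aestronglyMeasurable C (Filter.Eventually.of_forall fun ω => ?_)
    rw [Real.norm_eq_abs, abs_of_nonneg (h0 ω)]; exact hC ω
  have hEi : Integrable (fun ω => Real.exp (-X ω)) P := by
    refine Integrable.of_bound (Real.measurable_exp.comp hX.neg).aestronglyMeasurable 1
      (Filter.Eventually.of_forall fun ω => ?_)
    rw [Real.norm_eq_abs, abs_of_nonneg (Real.exp_pos _).le]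
    exact Real.exp_le_one_iff.2 (by linarith [h0 ω])
  set μ := ∫ ω, X ω ∂P with hμ
  have hle : ∀ ω, Real.exp (-μ) * (1 + μ - X ω) ≤ Real.exp (-X ω) := by
    intro ω
    have h1 := Real.add_one_le_exp (μ - X ω)
    have h2 : Real.exp (-X ω) = Real.exp (-μ) * Real.exp (μ - X ω) := by
      rw [← Real.exp_add]; congr 1; ring
    rw [h2]
    exact mul_le_mul_of_nonneg_left (by linarith) (Real.exp_pos _).le
  have h3 : ∫ ω, Real.exp (-μ) * (1 + μ - X ω) ∂P = Real.exp (-μ) := by
    rw [integral_const_mul, integral_sub (integrable_const _) hXi]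
    simp only [integral_const, probReal_univ, smul_eq_mul, one_mul]
    rw [← hμ]; ring
  rw [← h3]
  exact integral_mono (((integrable_const _).sub hXi).const_mul _) hEi hle

section F

variable {ι V : Type*} [Fintype ι] [DecidableEq ι] [Fintype V] [DecidableEq V] (en : ι → Finset V)
variable (ν : ι → Measure ℝ) [∀ i, IsProbabilityMeasure (ν i)] (φ h : ι → ℝ → ℝ)

/-- probability that all vertices of `W` are free at time `s` in the process on `A` -/
noncomputable def pf (A : Finset ι) (W : Finset V) (s : ℝ) : ℝ :=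
  (Measure.pi ν).real {ρ | ∀ w ∈ W, free en A ρ w s}

theorem measurable_freeSet (A : Finset ι) (W : Finset V) :
    Measurable fun p : (ι → ℝ) × ℝ => ∀ w ∈ W, free en A p.1 w p.2 :=
  Measurable.forall fun w => measurable_const.imp (measurable_free en A w)

theorem measurableSet_freeSet (A : Finset ι) (W : Finset V) (s : ℝ) :
    MeasurableSet {ρ : ι → ℝ | ∀ w ∈ W, free en A ρ w s} :=
  measurableSet_setOfPred.2 ((measurable_freeSet en A W).comp
    (measurable_id.prodMk measurable_const))

theorem mix_not_mem {B : Finset ι} {ρ τ : ι → ℝ} {i : ι} (h : i ∉ B) : mix B (ρ, τ) i = ρ i := by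
  simp [mix, h]

theorem mix_mem {B : Finset ι} {ρ τ : ι → ℝ} {i : ι} (h : i ∈ B) : mix B (ρ, τ) i = τ i := by
  simp [mix, h]

/-- (F1a): probability that `f` is selected before time `s` -/
theorem prob_sel (hL : ∀ i, RingLaw (ν i) (φ i) (h i)) (A : Finset ι) (f : ι) (hf : f ∈ A)
    {s : ℝ} (hs1 : s ≤ 1) :
    (Measure.pi ν).real {ρ | sel en A ρ f ∧ ρ f < s} =
      ∫ t in Set.Ico 0 s, φ f t * pf en ν (A.erase f) (en f) t := by
  have hEm : MeasurableSet {ρ : ι → ℝ | sel en A ρ f ∧ ρ f < s} := by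
    refine measurableSet_setOfPred.2 ((measurable_sel en A f).and ?_)
    exact measurableSet_setOfPred.1 (measurableSet_lt (measurable_pi_apply f) measurable_const)
  rw [real_eq_integral_mix ν {f} _ hEm]
  have hQ := measurable_freeSet en (A.erase f) (en f)
  have hin : ∀ ρ : ι → ℝ, (Measure.pi ν).real {τ | mix {f} (ρ, τ) ∈
      {ρ : ι → ℝ | sel en A ρ f ∧ ρ f < s}} =
      ∫ t in Set.Ico 0 s ∩ {t | ∀ v ∈ en f, free en (A.erase f) ρ v t}, φ f t := by
    intro ρ
    set K : Set ℝ := {t | t < s ∧ ∀ v ∈ en f, free en (A.erase f) ρ v t} with hK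
    have hKm : MeasurableSet K := by
      refine measurableSet_setOfPred.2 (Measurable.and ?_ (hQ.comp measurable_prodMk_left))
      exact measurableSet_setOfPred.1 (measurableSet_lt measurable_id measurable_const)
    have h1 : {τ | mix {f} (ρ, τ) ∈ {ρ : ι → ℝ | sel en A ρ f ∧ ρ f < s}} =
        {τ | ∀ g ∈ ({f} : Finset ι), τ g ∈ (fun _ => K) g} := by
      ext τ
      simp only [Set.mem_ofPred_eq, Finset.mem_singleton, forall_eq]
      rw [sel_iff_free en hf, mix_mem (Finset.mem_singleton_self f)]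
      constructor
      · rintro ⟨h1, h2⟩
        refine ⟨h2, fun v hv => ?_⟩
        rw [free_congr_on en (ρ' := mix {f} (ρ, τ))]
        · exact h1 v hv
        · intro g hg
          exact mix_not_mem (by simpa using (Finset.mem_erase.1 hg).1)
      · rintro ⟨h1, h2⟩
        refine ⟨fun v hv => ?_, h1⟩
        rw [← free_congr_on en (ρ := ρ)]
        · exact h2 v hv
        · intro g hg
          exact mix_not_mem (by simpa using (Finset.mem_erase.1 hg).1)
    rw [h1, pi_real_box]
    simp only [Finset.prod_singleton]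
    have h2 : (ν f).real K = (ν f).real (Set.Ico 0 s ∩
        {t | ∀ v ∈ en f, free en (A.erase f) ρ v t}) := by
      refine le_antisymm ?_ ?_
      · calc (ν f).real K ≤ (ν f).real ((Set.Ico 0 s ∩
            {t | ∀ v ∈ en f, free en (A.erase f) ρ v t}) ∪ Set.Iio 0) := by
              refine measureReal_mono ?_ (measure_ne_top _ _)
              rintro t ⟨ht1, ht2⟩
              by_cases h0 : 0 ≤ t
              · exact Or.inl ⟨⟨h0, ht1⟩, ht2⟩
              · exact Or.inr (not_le.1 h0)
          _ ≤ _ := by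
              refine (measureReal_union_le _ _).trans ?_
              have : (ν f).real (Set.Iio 0) = 0 := by
                unfold Measure.real; rw [(hL f).neg]; rfl
              rw [this, add_zero]
      · refine measureReal_mono ?_ (measure_ne_top _ _)
        rintro t ⟨ht1, ht2⟩
        exact ⟨ht1.2, ht2⟩
    rw [h2, (hL f).dens]
    · exact measurableSet_Ico.inter (measurableSet_setOfPred.2 (hQ.comp measurable_prodMk_left))
    · intro t ht; exact ⟨ht.1.1, ht.1.2.trans_le hs1⟩
  simp_rw [hin]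
  rw [fubini_ind (Measure.pi ν) (φ f) s
    ((hL f).φ_int.mono_set (Set.Ico_subset_Ico_right hs1))
    (fun p : (ι → ℝ) × ℝ => ∀ v ∈ en f, free en (A.erase f) p.1 v p.2) hQ]
  rfl

/-- the pairwise tie event is null before time one -/
theorem tie_null (hL : ∀ i, RingLaw (ν i) (φ i) (h i)) (f g : ι) (hfg : f ≠ g) :
    (Measure.pi ν).real {ρ | ρ f = ρ g ∧ ρ f < 1} = 0 := by
  have hEm : MeasurableSet {ρ : ι → ℝ | ρ f = ρ g ∧ ρ f < 1} := by
    refine measurableSet_setOfPred.2 (Measurable.and ?_ ?_)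
    · exact measurableSet_setOfPred.1
        (measurableSet_eq_fun (measurable_pi_apply f) (measurable_pi_apply g))
    · exact measurableSet_setOfPred.1 (measurableSet_lt (measurable_pi_apply f) measurable_const)
  rw [real_eq_integral_mix ν {f} _ hEm]
  have : ∀ ρ : ι → ℝ, (Measure.pi ν).real {τ | mix {f} (ρ, τ) ∈
      {ρ : ι → ℝ | ρ f = ρ g ∧ ρ f < 1}} = 0 := by
    intro ρ
    set K : Set ℝ := {t | t = ρ g ∧ t < 1} with hK
    have h1 : {τ | mix {f} (ρ, τ) ∈ {ρ : ι → ℝ | ρ f = ρ g ∧ ρ f < 1}} =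
        {τ | ∀ k ∈ ({f} : Finset ι), τ k ∈ (fun _ => K) k} := by
      ext τ
      simp only [Set.mem_ofPred_eq, Finset.mem_singleton, forall_eq]
      rw [mix_mem (Finset.mem_singleton_self f), mix_not_mem (by simpa using hfg.symm)]
      rfl
    rw [h1, pi_real_box]
    simp only [Finset.prod_singleton]
    have hle : (ν f).real K ≤ (ν f).real ((({ρ g} : Set ℝ) ∩ Set.Ico 0 1) ∪ Set.Iio 0) := by
      refine measureReal_mono ?_ (measure_ne_top _ _)
      rintro t ⟨ht1, ht2⟩
      by_cases h0 : 0 ≤ t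
      · exact Or.inl ⟨ht1, ⟨h0, ht2⟩⟩
      · exact Or.inr (not_le.1 h0)
    have h2 : (ν f).real ((({ρ g} : Set ℝ) ∩ Set.Ico 0 1) ∪ Set.Iio 0) ≤ 0 := by
      refine (measureReal_union_le _ _).trans ?_
      have h3 : (ν f).real (Set.Iio 0) = 0 := by
        unfold Measure.real; rw [(hL f).neg]; rfl
      have h4 : (ν f).real (({ρ g} : Set ℝ) ∩ Set.Ico 0 1) = 0 := by
        rw [(hL f).dens _ ((measurableSet_singleton _).inter measurableSet_Ico)
          Set.inter_subset_right]
        have : volume (({ρ g} : Set ℝ) ∩ Set.Ico 0 1) = 0 :=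
          measure_mono_null Set.inter_subset_left (by simp)
        exact setIntegral_measure_zero _ this
      rw [h3, h4, add_zero]
    exact le_antisymm (hle.trans h2) measureReal_nonneg
  simp_rw [this]
  simp

/-- (F1): upper bound for the probability that a vertex is free -/
theorem pf_le (hL : ∀ i, RingLaw (ν i) (φ i) (h i)) (A : Finset ι) (w : V) {s : ℝ}
    (hs1 : s ≤ 1) :
    pf en ν A {w} s ≤ 1 - ∑ f ∈ A.filter (fun f => w ∈ en f),
      ∫ t in Set.Ico 0 s, φ f t * pf en ν (A.erase f) (en f) t := by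
  have h1 : ∑ f ∈ A.filter (fun f => w ∈ en f),
      ∫ t in Set.Ico 0 s, φ f t * pf en ν (A.erase f) (en f) t =
      ∑ f ∈ A.filter (fun f => w ∈ en f),
        (Measure.pi ν).real {ρ | sel en A ρ f ∧ ρ f < s} := by
    refine Finset.sum_congr rfl fun f hf => ?_
    rw [prob_sel en ν φ h hL A f (Finset.mem_filter.1 hf).1 hs1]
  have hEm : ∀ f, MeasurableSet {ρ : ι → ℝ | sel en A ρ f ∧ ρ f < s} := by
    intro f
    refine measurableSet_setOfPred.2 ((measurable_sel en A f).and ?_)
    exact measurableSet_setOfPred.1 (measurableSet_lt (measurable_pi_apply f) measurable_const)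
  rw [h1]
  -- disjointness up to null sets
  have hdis : ∑ f ∈ A.filter (fun f => w ∈ en f),
        (Measure.pi ν).real {ρ | sel en A ρ f ∧ ρ f < s} =
      (Measure.pi ν).real (⋃ f ∈ A.filter (fun f => w ∈ en f),
        {ρ : ι → ℝ | sel en A ρ f ∧ ρ f < s}) := by
    symm
    unfold Measure.real
    rw [measure_biUnion_finset₀, ENNReal.toReal_sum (fun _ _ => measure_ne_top _ _)]
    · intro f hf g hg hfg
      have hfA := (Finset.mem_filter.1 hf)
      have hgA := (Finset.mem_filter.1 hg)
      have htie := tie_null ν φ h hL f g hfg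
      have htie' : (Measure.pi ν) {ρ | ρ f = ρ g ∧ ρ f < 1} = 0 := by
        unfold Measure.real at htie
        rw [ENNReal.toReal_eq_zero_iff] at htie
        exact htie.resolve_right (measure_ne_top _ _)
      refine measure_mono_null ?_ htie'
      rintro ρ ⟨⟨hsf, hfs⟩, ⟨hsg, hgs⟩⟩
      refine ⟨?_, hfs.trans_le hs1⟩
      have hnd : ¬ Disjoint (en f) (en g) := by
        rw [Finset.not_disjoint_iff]; exact ⟨w, hfA.2, hgA.2⟩
      rcases lt_trichotomy (ρ f) (ρ g) with hlt | heq | hgt
      · exact absurd hsf (((sel_iff en A ρ g).1 hsg).2 f hfA.1 hnd hlt)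
      · exact heq
      · exact absurd hsg (((sel_iff en A ρ f).1 hsf).2 g hgA.1
          (fun h => hnd h.symm) hgt)
    · intro f _; exact (hEm f).nullMeasurableSet
  rw [hdis, ← probReal_compl_eq_one_sub]
  · refine measureReal_mono ?_ (measure_ne_top _ _)
    intro ρ hρ hmem
    simp only [Set.mem_iUnion] at hmem
    obtain ⟨f, hf, hsf, hfs⟩ := hmem
    have := hρ w (Finset.mem_singleton_self w) f (Finset.mem_filter.1 hf).1
      (Finset.mem_filter.1 hf).2 hsf
    linarith
  · exact Finset.measurableSet_biUnion _ fun f _ => hEm f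

/-- (F2): lower bound for the probability that the vertices of `W` are free -/
theorem pf_ge (hL : ∀ i, RingLaw (ν i) (φ i) (h i)) (A : Finset ι) (W : Finset V) {s : ℝ}
    (hs : 0 ≤ s) (hs1 : s ≤ 1) :
    Real.exp (-∑ g ∈ A.filter (fun g => ¬ Disjoint (en g) W),
      ∫ t in Set.Ico 0 s, h g t * pf en ν (A.filter fun f => Disjoint (en f) W) (en g \ W) t) ≤
      pf en ν A W s := by
  set A' := A.filter fun f => Disjoint (en f) W with hA'
  set B := A.filter (fun g => ¬ Disjoint (en g) W) with hB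
  have hBA' : ∀ g ∈ A', g ∉ B := by
    intro g hg hgB
    exact (Finset.mem_filter.1 hgB).2 (Finset.mem_filter.1 hg).2
  set K : (ι → ℝ) → ι → Set ℝ := fun ρ g =>
    {t | t < s → ¬ ∀ y ∈ en g \ W, free en A' ρ y t} with hK
  have hQ : ∀ g, Measurable fun p : (ι → ℝ) × ℝ => ∀ y ∈ en g \ W, free en A' p.1 y p.2 :=
    fun g => measurable_freeSet en A' (en g \ W)
  have hlt : Measurable fun p : (ι → ℝ) × ℝ => p.2 < s :=
    measurableSet_setOfPred.1 (measurableSet_lt measurable_snd measurable_const)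
  -- the blocking event
  set E : Set (ι → ℝ) := {ρ | ∀ g ∈ B, ρ g ∈ K ρ g} with hE
  have hEm : MeasurableSet E := by
    refine measurableSet_setOfPred.2 (Measurable.forall fun g => measurable_const.imp ?_)
    have : Measurable fun p : (ι → ℝ) × ℝ => p.2 < s → ¬ ∀ y ∈ en g \ W, free en A' p.1 y p.2 :=
      hlt.imp (hQ g).not
    exact this.comp (measurable_id.prodMk (measurable_pi_apply g))
  have hEsub : (Measure.pi ν).real E ≤ pf en ν A W s := by
    refine measureReal_mono ?_ (measure_ne_top _ _)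
    intro ρ hρ w hw
    refine free_of_block en (A := A) (W := W) (s := s) ?_ w hw
    intro g hg hgW hgs
    have hgB : g ∈ B := Finset.mem_filter.2 ⟨hg, hgW⟩
    have := hρ g hgB hgs
    push Not at this
    exact this
  refine le_trans ?_ hEsub
  rw [real_eq_integral_mix ν B E hEm]
  set X : (ι → ℝ) → ℝ := fun ρ => ∑ g ∈ B,
    ∫ t in Set.Ico 0 s ∩ {t | ∀ y ∈ en g \ W, free en A' ρ y t}, h g t with hX
  have hin : ∀ ρ : ι → ℝ, (Measure.pi ν).real {τ | mix B (ρ, τ) ∈ E} = Real.exp (-X ρ) := by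
    intro ρ
    have h1 : {τ | mix B (ρ, τ) ∈ E} = {τ | ∀ g ∈ B, τ g ∈ K ρ g} := by
      ext τ
      simp only [hE, Set.mem_ofPred_eq]
      refine forall₂_congr fun g hg => ?_
      rw [mix_mem hg]
      simp only [hK, Set.mem_ofPred_eq]
      have : ∀ t, (∀ y ∈ en g \ W, free en A' (mix B (ρ, τ)) y t) ↔
          (∀ y ∈ en g \ W, free en A' ρ y t) := by
        intro t
        refine forall₂_congr fun y _ => ?_
        rw [← free_congr_on en (ρ := ρ)]
        intro k hk
        exact mix_not_mem (hBA' k hk)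
      rw [this]
    rw [h1, pi_real_box]
    have h2 : ∀ g ∈ B, (ν g).real (K ρ g) = Real.exp
        (-∫ t in Set.Ico 0 s ∩ {t | ∀ y ∈ en g \ W, free en A' ρ y t}, h g t) := by
      intro g _
      set D : Set ℝ := Set.Ico 0 s ∩ {t | ∀ y ∈ en g \ W, free en A' ρ y t} with hD
      have hDm : MeasurableSet D := measurableSet_Ico.inter
        (measurableSet_setOfPred.2 ((hQ g).comp measurable_prodMk_left))
      have hd := (hL g).real_downclosed hs hs1 D hDm Set.inter_subset_left (by
        rintro t ⟨ht1, ht2⟩ t' h0 htt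
        exact ⟨⟨h0, htt.trans_lt ht1.2⟩, fun y hy => free_anti en htt (ht2 y hy)⟩)
      have hKc : (ν g).real (K ρ g) = 1 - (ν g).real D := by
        have hKm : MeasurableSet (K ρ g) :=
          measurableSet_setOfPred.2 ((hlt.imp (hQ g).not).comp measurable_prodMk_left)
        have h3 : (ν g).real (K ρ g)ᶜ = (ν g).real D := by
          refine le_antisymm ?_ ?_
          · have hle : (ν g).real (K ρ g)ᶜ ≤ (ν g).real (D ∪ Set.Iio 0) := by
              refine measureReal_mono ?_ (measure_ne_top _ _)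
              intro t ht
              simp only [hK, Set.mem_compl_iff, Set.mem_ofPred_eq, Classical.not_imp,
                not_not] at ht
              obtain ⟨ht1, ht2⟩ := ht
              by_cases h0 : 0 ≤ t
              · exact Or.inl ⟨⟨h0, ht1⟩, ht2⟩
              · exact Or.inr (not_le.1 h0)
            refine hle.trans ((measureReal_union_le _ _).trans ?_)
            have : (ν g).real (Set.Iio 0) = 0 := by
              unfold Measure.real; rw [(hL g).neg]; rfl
            rw [this, add_zero]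
          · refine measureReal_mono ?_ (measure_ne_top _ _)
            rintro t ⟨ht1, ht2⟩
            simp only [hK, Set.mem_compl_iff, Set.mem_ofPred_eq, Classical.not_imp, not_not]
            exact ⟨ht1.2, ht2⟩
        have h4 := probReal_compl_eq_one_sub (μ := ν g) hKm
        rw [h3] at h4
        linarith
      rw [hKc, hd]; ring
    rw [Finset.prod_congr rfl h2, ← Real.exp_sum, Finset.sum_neg_distrib]
  simp_rw [hin]
  -- boundedness and measurability of X
  have hhint : ∀ g, IntegrableOn (h g) (Set.Ico 0 s) :=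
    fun g => (hL g).h_int.mono_set (Set.Ico_subset_Ico_right hs1)
  have hX0 : ∀ ρ, 0 ≤ X ρ := fun ρ => Finset.sum_nonneg fun g _ =>
    integral_nonneg fun t => (hL g).h_nonneg t
  have hXC : ∀ ρ, X ρ ≤ ∑ g ∈ B, ∫ t in Set.Ico 0 s, h g t := fun ρ =>
    Finset.sum_le_sum fun g _ => setIntegral_mono_set (hhint g)
      (Filter.Eventually.of_forall fun t => (hL g).h_nonneg t)
      (Filter.Eventually.of_forall fun t ht => ht.1)
  have hXm : Measurable X := by
    refine Finset.measurable_sum _ fun g _ => ?_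
    exact measurable_inner (h g) (hL g).h_meas s
      (fun p : (ι → ℝ) × ℝ => ∀ y ∈ en g \ W, free en A' p.1 y p.2) (hQ g)
  refine le_trans (le_of_eq ?_) (jensen_exp (Measure.pi ν) X hXm _ hX0 hXC)
  congr 2
  rw [hX, integral_finsetSum]
  · refine Finset.sum_congr rfl fun g _ => ?_
    rw [fubini_ind (Measure.pi ν) (h g) s (hhint g)
      (fun p : (ι → ℝ) × ℝ => ∀ y ∈ en g \ W, free en A' p.1 y p.2) (hQ g)]
    rfl
  · intro g _
    refine Integrable.of_bound (measurable_inner (h g) (hL g).h_meas s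
      (fun p : (ι → ℝ) × ℝ => ∀ y ∈ en g \ W, free en A' p.1 y p.2)
      (hQ g)).aestronglyMeasurable (∫ t in Set.Ico 0 s, h g t)
      (Filter.Eventually.of_forall fun ρ => ?_)
    rw [Real.norm_eq_abs, abs_of_nonneg (integral_nonneg fun t => (hL g).h_nonneg t)]
    exact setIntegral_mono_set (hhint g)
      (Filter.Eventually.of_forall fun t => (hL g).h_nonneg t)
      (Filter.Eventually.of_forall fun t ht => ht.1)

end F

end Pool.Agent.RCRS
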