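import Pool.Agent.RCRS.Laws
import Pool.Agent.RCRS.Level

/-! The ring process on the edges of a graph with one loop per vertex making all vertices
saturated, and the corresponding scheme (MP_73ccd0_lc). -/

set_option linter.unusedSectionVars false

namespace Pool.Agent.RCRS

open MeasureTheory

section Setup

variable {V : Type} [Fintype V] [DecidableEq V] {G : SimpleGraph V} [Fintype G.edgeSet]
  [DecidableEq G.edgeSet] (x : G.edgeSet → ℝ)

/-- the weight of the loop at `v` -/
noncomputable def defect (v : V) : ℝ := 1 - ∑ e : G.edgeSet, if v ∈ (e : Sym2 V) then x e else 0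

/-- weights of all items -/
noncomputable def wt : G.edgeSet ⊕ V → ℝ := Sum.elim x (defect x)

/-- acceptance probabilities of the edges -/
noncomputable def accE (η N : ℝ → ℝ → ℝ) (e : G.edgeSet) : ℝ → ℝ :=
  cut fun t => η (x e) t * Real.exp (-(x e * N (x e) t))

/-- laws of the loops -/
noncomputable def lawV (P ψ : ℝ → ℝ) (v : V) : Measure ℝ :=
  mixture 1 (cut fun t => defect x v * (P t * Real.exp (-(defect x v * ψ t))))

/-- laws of all items -/
noncomputable def lawI (η N : ℝ → ℝ → ℝ) (P ψ : ℝ → ℝ) : G.edgeSet ⊕ V → Measure ℝ :=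
  laws (accE x η N) x (lawV x P ψ)

/-- densities -/
noncomputable def denI (η N : ℝ → ℝ → ℝ) (P ψ : ℝ → ℝ) : G.edgeSet ⊕ V → ℝ → ℝ :=
  Sum.elim (fun e t => x e * accE x η N e t)
    (fun v t => 1 * cut (fun t => defect x v * (P t * Real.exp (-(defect x v * ψ t)))) t)

/-- hazards -/
noncomputable def hazI (η : ℝ → ℝ → ℝ) (P : ℝ → ℝ) : G.edgeSet ⊕ V → ℝ → ℝ :=
  Sum.elim (fun e => cut fun t => x e * η (x e) t) (fun v => cut fun t => defect x v * P t)

variable {x}

theorem defect_nonneg (hx : IsFractionalMatching G x) (v : V) : 0 ≤ defect x v := by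
  have := hx.2 v; unfold defect; linarith

theorem defect_le_one (hx : IsFractionalMatching G x) (v : V) : defect x v ≤ 1 := by
  have : 0 ≤ ∑ e : G.edgeSet, if v ∈ (e : Sym2 V) then x e else 0 :=
    Finset.sum_nonneg fun e _ => by split_ifs; exacts [(hx.1 e).1, le_rfl]
  unfold defect; linarith

theorem wt_nonneg (hx : IsFractionalMatching G x) (i : G.edgeSet ⊕ V) : 0 ≤ wt x i := by
  rcases i with e | v
  · exact (hx.1 e).1
  · exact defect_nonneg hx v

theorem ends_inl (e : G.edgeSet) (v : V) : v ∈ ends G (Sum.inl e) ↔ v ∈ (e : Sym2 V) := by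
  simp [ends]

theorem ends_inr (v w : V) : w ∈ ends G (Sum.inr v) ↔ w = v := by
  simp [ends]

theorem ends_card_inl (e : G.edgeSet) : (ends G (Sum.inl e)).card = 2 := by
  simp only [ends]
  exact Sym2.card_toFinset_of_not_isDiag _ (G.not_isDiag_of_mem_edgeSet e.2)

theorem ends_card_inr (v : V) : (ends G (Sum.inr v)).card = 1 := by
  simp [ends]

/-- every vertex is saturated -/
theorem mass_eq_one (v : V) :
    ∑ g ∈ (Finset.univ : Finset (G.edgeSet ⊕ V)).filter (fun g => v ∈ ends G g), wt x g = 1 := by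
  rw [Finset.sum_filter, Fintype.sum_sum_type]
  simp only [ends_inl, ends_inr, wt, Sum.elim_inl, Sum.elim_inr]
  rw [Finset.sum_ite_eq]
  simp only [Finset.mem_univ, if_true]
  unfold defect
  ring

variable {η N : ℝ → ℝ → ℝ} {P ψ : ℝ → ℝ}

theorem accE_measurable (hη : ∀ α ∈ Set.Icc (0:ℝ) 1, Profile (η α) (N α))
    (hx : IsFractionalMatching G x) (e : G.edgeSet) : Measurable (accE x η N e) := by
  have hP := hη (x e) ⟨(hx.1 e).1, (hx.1 e).2⟩
  exact measurable_cut (hP.meas.mul (Real.measurable_exp.comp (hP.measN.const_mul (x e)).neg))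

theorem lawV_prob (hP : Profile P ψ) (v : V) : IsProbabilityMeasure (lawV x P ψ v) := by
  refine mixture_prob zero_le_one le_rfl (measurable_cut ?_)
  exact (hP.meas.mul (Real.measurable_exp.comp (hP.measN.const_mul _).neg)).const_mul _

theorem lawI_prob (hη : ∀ α ∈ Set.Icc (0:ℝ) 1, Profile (η α) (N α)) (hP : Profile P ψ)
    (hx : IsFractionalMatching G x) (i : G.edgeSet ⊕ V) :
    IsProbabilityMeasure (lawI x η N P ψ i) := by
  rcases i with e | v
  · exact mixture_prob (hx.1 e).1 (hx.1 e).2 (accE_measurable hη hx e)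
  · exact lawV_prob hP v

theorem ringLaws (hη : ∀ α ∈ Set.Icc (0:ℝ) 1, Profile (η α) (N α)) (hP : Profile P ψ)
    (hx : IsFractionalMatching G x) (i : G.edgeSet ⊕ V) :
    RingLaw (lawI x η N P ψ i) (denI x η N P ψ i) (hazI x η P i) := by
  rcases i with e | v
  · exact ringLaw_edge (hη (x e) ⟨(hx.1 e).1, (hx.1 e).2⟩) (hx.1 e).1
  · exact ringLaw_loop hP (defect_nonneg hx v) (defect_le_one hx v)

theorem haz_integral_le (hη : ∀ α ∈ Set.Icc (0:ℝ) 1, Profile (η α) (N α)) (hP : Profile P ψ)
    (hx : IsFractionalMatching G x) (i : G.edgeSet ⊕ V) (t : ℝ) (ht : t ∈ Set.Icc (0:ℝ) 1) :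
    ∫ q in Set.Ico 0 t, hazI x η P i q ≤ wt x i * t := by
  rcases i with e | v
  · have hp := hη (x e) ⟨(hx.1 e).1, (hx.1 e).2⟩
    show ∫ q in Set.Ico 0 t, cut (fun t => x e * η (x e) t) q ≤ x e * t
    rw [integral_cut _ ht.2, integral_const_mul, hp.integral ht]
    exact mul_le_mul_of_nonneg_left (hp.N_le ht) (hx.1 e).1
  · show ∫ q in Set.Ico 0 t, cut (fun t => defect x v * P t) q ≤ defect x v * t
    rw [integral_cut _ ht.2, integral_const_mul, hP.integral ht]
    exact mul_le_mul_of_nonneg_left (hP.N_le ht) (defect_nonneg hx v)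

/-- the scheme realises the ring process -/
theorem exists_scheme (hη : ∀ α ∈ Set.Icc (0:ℝ) 1, Profile (η α) (N α)) (hP : Profile P ψ)
    (hx : IsFractionalMatching G x) :
    ∃ S : Scheme G, ∀ e, S.selProb x e = (Measure.pi (lawI x η N P ψ)).real
      {ρ | sel (ends G) Finset.univ ρ (Sum.inl e) ∧ ρ (Sum.inl e) < 1} := by
  haveI : ∀ v, IsProbabilityMeasure (lawV x P ψ v) := fun v => lawV_prob hP v
  haveI : ∀ i, IsProbabilityMeasure (lawI x η N P ψ i) := fun i => lawI_prob hη hP hx i
  haveI : ∀ i, SigmaFinite (laws (accE x η N) x (lawV x P ψ) i) := fun i =>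
    (inferInstance : SigmaFinite (lawI x η N P ψ i))
  refine ⟨scheme (accE x η N) (fun e => accE_measurable hη hx e) (lawV x P ψ), fun e => ?_⟩
  exact scheme_selProb (fun e => accE_measurable hη hx e) x hx.1 (lawV x P ψ) e

end Setup

end Pool.Agent.RCRS
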