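import Pool.Agent.RCRS.TriMain

/-! Triangle-free graphs: an RCRS with selectability 0.494 (MP_73ccd0_lc). -/

set_option linter.unusedSectionVars false

namespace Pool.Agent.RCRS

open MeasureTheory

namespace Tri

/-- edge profiles -/
noncomputable def ηE (α t : ℝ) : ℝ := 1 - α * g t

/-- their integrals -/
noncomputable def NE (α t : ℝ) : ℝ := t - α * Gi t

theorem profileE {α : ℝ} (hα : α ∈ Set.Icc (0:ℝ) 1) : Profile (ηE α) (NE α) where
  meas := by unfold ηE g; fun_prop
  nonneg := by
    intro t ht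
    have h1 := g_nonneg ht.1 ht.2
    have h2 := g_le_one ht.1 ht.2
    unfold ηE
    nlinarith [hα.1, hα.2]
  le_one := by
    intro t ht
    have h1 := g_nonneg ht.1 ht.2
    unfold ηE
    nlinarith [hα.1]
  measN := by unfold NE Gi; fun_prop
  cont := by unfold NE Gi; fun_prop
  zero := by simp [NE, Gi]
  deriv := ⟨∅, Set.countable_empty, fun t _ => by
    exact (hasDerivAt_id' t).fun_sub ((hasDerivAt_Gi t).const_mul α)⟩

theorem profileP : Profile P Ψ where
  meas := by unfold P; fun_prop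
  nonneg := fun t ht => P_nonneg ht.1 ht.2
  le_one := fun t ht => P_le_one ht.1 ht.2
  measN := by unfold Ψ; fun_prop
  cont := by unfold Ψ; fun_prop
  zero := by simp [Ψ]
  deriv := ⟨∅, Set.countable_empty, fun t _ => hasDerivAt_Ψ t⟩

end Tri

section

variable {V : Type} [Fintype V] [DecidableEq V] {G : SimpleGraph V} [Fintype G.edgeSet]
  [DecidableEq G.edgeSet] {x : G.edgeSet → ℝ}

theorem sdiff_ends {e f : G.edgeSet} (hfe : f ≠ e)
    (hd : ¬ Disjoint (ends G (Sum.inl f)) (ends G (Sum.inl e))) :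
    ∃ y u, ends G (Sum.inl f) \ ends G (Sum.inl e) = {y} ∧ y ∈ (f : Sym2 V) ∧
      y ∉ (e : Sym2 V) ∧ u ∈ (f : Sym2 V) ∧ u ∈ (e : Sym2 V) := by
  have h1 : 1 ≤ (ends G (Sum.inl f) ∩ ends G (Sum.inl e)).card := by
    rw [Finset.one_le_card, Finset.nonempty_iff_ne_empty]
    intro h; exact hd (Finset.disjoint_iff_inter_eq_empty.2 h)
  have h2 : 1 ≤ (ends G (Sum.inl f) \ ends G (Sum.inl e)).card := by
    by_contra hlt
    have h0 : (ends G (Sum.inl f) \ ends G (Sum.inl e)).card = 0 := by omega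
    rw [Finset.card_eq_zero, Finset.sdiff_eq_empty_iff_subset] at h0
    have := Finset.eq_of_subset_of_card_le h0 (by rw [ends_card_inl, ends_card_inl])
    apply hfe
    apply Subtype.ext
    apply Sym2.ext
    intro v
    rw [← ends_inl, ← ends_inl, this]
  have h3 := Finset.card_sdiff_add_card_inter (ends G (Sum.inl f)) (ends G (Sum.inl e))
  rw [ends_card_inl] at h3
  have h4 : (ends G (Sum.inl f) \ ends G (Sum.inl e)).card = 1 := by omega
  obtain ⟨y, hy⟩ := Finset.card_eq_one.1 h4
  obtain ⟨u, hu⟩ := Finset.one_le_card.1 h1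
  have hy' : y ∈ ends G (Sum.inl f) \ ends G (Sum.inl e) := by rw [hy]; simp
  rw [Finset.mem_sdiff, ends_inl, ends_inl] at hy'
  rw [Finset.mem_inter, ends_inl, ends_inl] at hu
  exact ⟨y, u, hy, hy'.1, hy'.2, hu.1, hu.2⟩

theorem mass_after_delete (hG : G.CliqueFree 3) {e f : G.edgeSet}
    {y u : V} (hyf : y ∈ (f : Sym2 V)) (hye : y ∉ (e : Sym2 V)) (huf : u ∈ (f : Sym2 V))
    (hue : u ∈ (e : Sym2 V)) :
    ∑ i ∈ ((Finset.univ.erase (Sum.inl e)).filter fun i =>
      Disjoint (ends G i) (ends G (Sum.inl e))).filter (fun i => y ∈ ends G i), wt x i =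
      1 - x f := by
  have h1 := mass_eq_one (x := x) y
  have hmem : Sum.inl f ∈ (Finset.univ : Finset (G.edgeSet ⊕ V)).filter
      (fun i => y ∈ ends G i) := by
    simp only [Finset.mem_filter, Finset.mem_univ, true_and]
    rw [ends_inl]; exact hyf
  rw [← Finset.sum_erase_add _ _ hmem] at h1
  have h2 : ((Finset.univ.erase (Sum.inl e)).filter fun i =>
      Disjoint (ends G i) (ends G (Sum.inl e))).filter (fun i => y ∈ ends G i) =
      ((Finset.univ : Finset (G.edgeSet ⊕ V)).filter (fun i => y ∈ ends G i)).erase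
        (Sum.inl f) := by
    ext i
    simp only [Finset.mem_filter, Finset.mem_univ, Finset.mem_erase, true_and, and_true]
    have hyu : y ≠ u := by rintro rfl; exact hye hue
    constructor
    · rintro ⟨⟨hie, hdis⟩, hyi⟩
      refine ⟨?_, hyi⟩
      rintro rfl
      exact Finset.disjoint_left.1 hdis ((ends_inl f u).2 huf) ((ends_inl e u).2 hue)
    · rintro ⟨hif, hyi⟩
      refine ⟨⟨?_, ?_⟩, hyi⟩
      · rintro rfl; exact hye ((ends_inl e y).1 hyi)
      · rw [Finset.disjoint_left]
        intro z hzi hze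
        rcases i with f' | w
        · rw [ends_inl] at hyi hzi hze
          have hyz : y ≠ z := by rintro rfl; exact hye hze
          have hf'eq : (f' : Sym2 V) = s(y, z) := (Sym2.mem_and_mem_iff hyz).1 ⟨hyi, hzi⟩
          have hfeq : (f : Sym2 V) = s(y, u) := (Sym2.mem_and_mem_iff hyu).1 ⟨hyf, huf⟩
          by_cases huz : u = z
          · apply hif
            congr 1
            apply Subtype.ext
            rw [hf'eq, hfeq, huz]
          · have heeq : (e : Sym2 V) = s(u, z) := (Sym2.mem_and_mem_iff huz).1 ⟨hue, hze⟩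
            have a1 : G.Adj y z := by
              have := f'.2; rw [hf'eq, SimpleGraph.mem_edgeSet] at this; exact this
            have a2 : G.Adj y u := by
              have := f.2; rw [hfeq, SimpleGraph.mem_edgeSet] at this; exact this
            have a3 : G.Adj u z := by
              have := e.2; rw [heeq, SimpleGraph.mem_edgeSet] at this; exact this
            exact hG {y, u, z} (SimpleGraph.is3Clique_triple_iff.2 ⟨a2, a1, a3⟩)
        · rw [ends_inr] at hyi hzi
          rw [ends_inl] at hze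
          subst hyi
          subst hzi
          exact hye hze
  rw [h2]
  have : wt x (Sum.inl f) = x f := rfl
  rw [this] at h1
  linarith

/-- the weights of the items meeting `e`, other than `e` -/
theorem mass_around (hx : IsFractionalMatching G x) (e : G.edgeSet) :
    ∑ i ∈ (Finset.univ.erase (Sum.inl e)).filter
      (fun i => ¬ Disjoint (ends G i) (ends G (Sum.inl e))), wt x i ≤ 2 - 2 * x e := by
  refine (mass_touch (ends G) (wt x) (wt_nonneg hx) (Finset.univ.erase (Sum.inl e))
    (ends G (Sum.inl e))).trans ?_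
  have h1 : ∑ v ∈ ends G (Sum.inl e), ∑ i ∈ (Finset.univ.erase (Sum.inl e)).filter
      (fun i => v ∈ ends G i), wt x i = ∑ v ∈ ends G (Sum.inl e), (1 - x e) := by
    refine Finset.sum_congr rfl fun v hv => ?_
    rw [mass_erase (ends G) (wt x) Finset.univ (Sum.inl e) (Finset.mem_univ _) v hv,
      mass_eq_one]
    rfl
  rw [h1, Finset.sum_const, nsmul_eq_mul, ends_card_inl]
  push_cast
  linarith

theorem hazI_inl_of_mem {η : ℝ → ℝ → ℝ} {P : ℝ → ℝ} (f : G.edgeSet) {t : ℝ}
    (ht : t ∈ Set.Ico (0:ℝ) 1) : hazI x η P (Sum.inl f) t = x f * η (x f) t := by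
  show cut (fun t => x f * η (x f) t) t = _
  rw [cut_of_mem ht]

theorem hazI_inr_of_mem {η : ℝ → ℝ → ℝ} {P : ℝ → ℝ} (v : V) {t : ℝ}
    (ht : t ∈ Set.Ico (0:ℝ) 1) : hazI x η P (Sum.inr v) t = defect x v * P t := by
  show cut (fun t => defect x v * P t) t = _
  rw [cut_of_mem ht]

theorem denI_inl_of_mem {η N : ℝ → ℝ → ℝ} {P ψ : ℝ → ℝ} (f : G.edgeSet) {t : ℝ}
    (ht : t ∈ Set.Ico (0:ℝ) 1) :
    denI x η N P ψ (Sum.inl f) t = x f * (η (x f) t * Real.exp (-(x f * N (x f) t))) := by
  show x f * cut _ t = _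
  rw [cut_of_mem ht]

theorem denI_inr_of_mem {η N : ℝ → ℝ → ℝ} {P ψ : ℝ → ℝ} (v : V) {t : ℝ}
    (ht : t ∈ Set.Ico (0:ℝ) 1) :
    denI x η N P ψ (Sum.inr v) t = defect x v * (P t * Real.exp (-(defect x v * ψ t))) := by
  show 1 * cut _ t = _
  rw [cut_of_mem ht, one_mul]

/-- loops contribute at most their weight times `ψ` -/
theorem loop_contrib {η N : ℝ → ℝ → ℝ} {P ψ : ℝ → ℝ}
    (hη : ∀ α ∈ Set.Icc (0:ℝ) 1, Profile (η α) (N α)) (hP : Profile P ψ)
    (hx : IsFractionalMatching G x) (v : V) (A : Finset (G.edgeSet ⊕ V)) (W : Finset V)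
    {t : ℝ} (ht : t ∈ Set.Icc (0:ℝ) 1) :
    ∫ q in Set.Ico 0 t, hazI x η P (Sum.inr v) q * pf (ends G) (lawI x η N P ψ) A W q ≤
      defect x v * ψ t := by
  have hprob : ∀ i, IsProbabilityMeasure (lawI x η N P ψ i) := fun i => lawI_prob hη hP hx i
  have hL := ringLaws hη hP hx
  have hi : IntegrableOn (hazI x η P (Sum.inr v)) (Set.Ico 0 t) :=
    (hL (Sum.inr v)).h_int.mono_set (Set.Ico_subset_Ico_right ht.2)
  have h1 : ∫ q in Set.Ico 0 t, hazI x η P (Sum.inr v) q *
      pf (ends G) (lawI x η N P ψ) A W q ≤ ∫ q in Set.Ico 0 t, hazI x η P (Sum.inr v) q := by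
    refine setIntegral_mono_on (integrableOn_mul_pf _ _ hi _ _) hi measurableSet_Ico fun q _ => ?_
    exact mul_le_of_le_one_right ((hL (Sum.inr v)).h_nonneg q) (pf_le_one _ _ _ _ _)
  refine h1.trans ?_
  show ∫ q in Set.Ico 0 t, cut (fun t => defect x v * P t) q ≤ _
  rw [integral_cut _ ht.2, integral_const_mul, hP.integral ht]

namespace Tri

theorem integrableOn_exp (c : ℝ) : IntegrableOn (fun t => Real.exp (-(c * t))) (Set.Ico 0 1) := by
  have hc : Continuous (fun t : ℝ => Real.exp (-(c * t))) := by fun_prop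
  exact (hc.integrableOn_Icc (a := 0) (b := 1)).mono_set Set.Ico_subset_Icc_self

/-- level one for the polynomial profiles -/
theorem level_one_tri (hx : IsFractionalMatching G x) (A : Finset (G.edgeSet ⊕ V)) (y : V)
    {m : ℝ} (hm0 : 0 ≤ m) (hm : ∑ i ∈ A.filter (fun i => y ∈ ends G i), wt x i = 1 - m)
    {s : ℝ} (hs1 : s ≤ 1) :
    pf (ends G) (lawI x ηE NE P Ψ) A {y} s ≤
      1 - (1 - m) * ∫ t in Set.Ico 0 s, Real.exp (-((2 - m) * t)) := by
  have hη : ∀ α ∈ Set.Icc (0:ℝ) 1, Profile (ηE α) (NE α) := fun α hα => profileE hα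
  have hprob : ∀ i, IsProbabilityMeasure (lawI x ηE NE P Ψ i) :=
    fun i => lawI_prob hη profileP hx i
  have hL := ringLaws hη profileP hx
  refine level_one (ends G) (lawI x ηE NE P Ψ) (denI x ηE NE P Ψ) (hazI x ηE P) (wt x) hL
    (wt_nonneg hx) (haz_integral_le hη profileP hx) A y m hm ?_ _ (integrableOn_exp _) ?_ hs1
  · intro v
    rw [← mass_eq_one (x := x) v]
    refine Finset.sum_le_sum_of_subset_of_nonneg ?_ fun i _ _ => wt_nonneg hx i
    exact Finset.filter_subset_filter _ (Finset.subset_univ A)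
  · intro i hi hyi t ht
    have ht1 := ht.2.le
    rcases i with f | v
    · rw [denI_inl_of_mem f ht, ends_card_inl]
      have hf := hx.1 f
      have hG0 := Gi_nonneg ht.1 ht1
      have hedge := edge_cond hf.1 hf.2 ht.1 ht1
      have hw : wt x (Sum.inl f) = x f := rfl
      rw [hw]
      push_cast
      have hg1 := g_le_one ht.1 ht1
      have hg0 := g_nonneg ht.1 ht1
      have hu : 0 ≤ 1 - x f * g t := by nlinarith
      have e1 : x f * (ηE (x f) t * Real.exp (-(x f * NE (x f) t))) *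
          Real.exp (-((2 - m - 2 * x f) * t)) =
          x f * (Real.exp (-((2 - m) * t)) * ((1 - x f * g t) *
            (Real.exp (x f * t) * Real.exp (x f ^ 2 * Gi t)))) := by
        have : Real.exp (-(x f * NE (x f) t)) * Real.exp (-((2 - m - 2 * x f) * t)) =
            Real.exp (-((2 - m) * t)) * (Real.exp (x f * t) * Real.exp (x f ^ 2 * Gi t)) := by
          rw [← Real.exp_add, ← Real.exp_add, ← Real.exp_add]
          congr 1; unfold NE; ring
        calc x f * (ηE (x f) t * Real.exp (-(x f * NE (x f) t))) *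
          Real.exp (-((2 - m - 2 * x f) * t))
            = x f * ηE (x f) t * (Real.exp (-(x f * NE (x f) t)) *
              Real.exp (-((2 - m - 2 * x f) * t))) := by ring
          _ = _ := by rw [this]; unfold ηE; ring
      rw [e1]
      refine mul_le_mul_of_nonneg_left ?_ hf.1
      refine le_mul_of_one_le_right (Real.exp_pos _).le ?_
      have h5 : 1 ≤ Real.exp (x f ^ 2 * Gi t) := Real.one_le_exp (by positivity)
      calc (1:ℝ) ≤ (1 - x f * g t) * Real.exp (x f * t) := hedge
        _ ≤ (1 - x f * g t) * (Real.exp (x f * t) * Real.exp (x f ^ 2 * Gi t)) :=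
            mul_le_mul_of_nonneg_left (le_mul_of_one_le_right (Real.exp_pos _).le h5) hu
    · rw [denI_inr_of_mem v ht, ends_card_inr]
      have hd := defect_nonneg hx v
      have hP0 := P_nonneg ht.1 ht1
      have hΨ : Ψ t ≤ t := profileP.N_le ⟨ht.1, ht1⟩
      have hw : wt x (Sum.inr v) = defect x v := rfl
      rw [hw]
      push_cast
      set δ := defect x v with hδ
      have e1 : δ * (P t * Real.exp (-(δ * Ψ t))) * Real.exp (-((1 - m - 1 * δ) * t)) =
          δ * (Real.exp (-((2 - m) * t)) * ((P t * Real.exp t) * Real.exp (δ * (t - Ψ t)))) := by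
        have : Real.exp (-(δ * Ψ t)) * Real.exp (-((1 - m - 1 * δ) * t)) =
            Real.exp (-((2 - m) * t)) * (Real.exp t * Real.exp (δ * (t - Ψ t))) := by
          rw [← Real.exp_add, ← Real.exp_add, ← Real.exp_add]
          congr 1; ring
        calc δ * (P t * Real.exp (-(δ * Ψ t))) * Real.exp (-((1 - m - 1 * δ) * t))
            = δ * P t * (Real.exp (-(δ * Ψ t)) * Real.exp (-((1 - m - 1 * δ) * t))) := by ring
          _ = _ := by rw [this]; ring
      rw [e1]
      refine mul_le_mul_of_nonneg_left ?_ hd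
      refine le_mul_of_one_le_right (Real.exp_pos _).le ?_
      have h5 : 1 ≤ Real.exp (δ * (t - Ψ t)) :=
        Real.one_le_exp (mul_nonneg hd (by linarith))
      calc (1:ℝ) ≤ P t * Real.exp t := loop_cond ht.1 ht1
        _ ≤ (P t * Real.exp t) * Real.exp (δ * (t - Ψ t)) :=
            le_mul_of_one_le_right (by positivity) h5

/-- the contribution of an item meeting `e` -/
theorem item_contrib (hG : G.CliqueFree 3) (hx : IsFractionalMatching G x) (e : G.edgeSet)
    (i : G.edgeSet ⊕ V) (hie : i ≠ Sum.inl e)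
    (hd : ¬ Disjoint (ends G i) (ends G (Sum.inl e))) {t : ℝ} (ht : t ∈ Set.Icc (0:ℝ) 1) :
    ∫ q in Set.Ico 0 t, hazI x ηE P i q * pf (ends G) (lawI x ηE NE P Ψ)
      ((Finset.univ.erase (Sum.inl e)).filter fun f => Disjoint (ends G f) (ends G (Sum.inl e)))
      (ends G i \ ends G (Sum.inl e)) q ≤ wt x i * Ψ t := by
  have hη : ∀ α ∈ Set.Icc (0:ℝ) 1, Profile (ηE α) (NE α) := fun α hα => profileE hα
  rcases i with f | v
  · have hfe : f ≠ e := fun h => hie (by rw [h])
    obtain ⟨y, u, hy, hyf, hye, huf, hue⟩ := sdiff_ends hfe hd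
    rw [hy]
    have hprob : ∀ i, IsProbabilityMeasure (lawI x ηE NE P Ψ i) :=
      fun i => lawI_prob hη profileP hx i
    have hL := ringLaws hη profileP hx
    have hf := hx.1 f
    have hi : IntegrableOn (hazI x ηE P (Sum.inl f)) (Set.Ico 0 t) :=
      (hL (Sum.inl f)).h_int.mono_set (Set.Ico_subset_Ico_right ht.2)
    have hPi : IntegrableOn P (Set.Ico 0 t) :=
      profileP.intOn.mono_set (Set.Ico_subset_Icc_self.trans (Set.Icc_subset_Icc_right ht.2))
    have hmass := mass_after_delete (x := x) hG hyf hye huf hue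
    show _ ≤ x f * Ψ t
    rw [← profileP.integral ht, ← integral_const_mul]
    refine setIntegral_mono_on (integrableOn_mul_pf _ _ hi _ _) (hPi.const_mul _)
      measurableSet_Ico fun q hq => ?_
    have hq1 : q ∈ Set.Ico (0:ℝ) 1 := ⟨hq.1, hq.2.trans_le ht.2⟩
    rw [hazI_inl_of_mem f hq1]
    have h1 := level_one_tri hx _ y hf.1 hmass hq1.2.le
    have h2 := level_cond hf.1 hf.2 hq1.1 hq1.2.le
    have hu : 0 ≤ 1 - x f * g q := (profileE ⟨hf.1, hf.2⟩).nonneg q (Set.Ico_subset_Icc_self hq1)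
    have h3 := mul_le_mul_of_nonneg_left h1 hu
    calc x f * ηE (x f) q * pf (ends G) (lawI x ηE NE P Ψ) _ {y} q
        = x f * ((1 - x f * g q) * pf (ends G) (lawI x ηE NE P Ψ) _ {y} q) := by
          unfold ηE; ring
      _ ≤ x f * P q := mul_le_mul_of_nonneg_left (h3.trans h2) hf.1
  · exact loop_contrib hη profileP hx v _ _ ht

end Tri

/-- **Triangle-free graphs**: selectability `0.494` -/
theorem triangle_free_selectable (hG : G.CliqueFree 3) (hx : IsFractionalMatching G x) :
    ∃ S : Scheme G, ∀ e, 494 / 1000 * x e ≤ S.selProb x e := by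
  have hη : ∀ α ∈ Set.Icc (0:ℝ) 1, Profile (Tri.ηE α) (Tri.NE α) := fun α hα => Tri.profileE hα
  have hprob : ∀ i, IsProbabilityMeasure (lawI x Tri.ηE Tri.NE Tri.P Tri.Ψ i) :=
    fun i => lawI_prob hη Tri.profileP hx i
  have hL := ringLaws hη Tri.profileP hx
  obtain ⟨S, hS⟩ := exists_scheme hη Tri.profileP hx
  refine ⟨S, fun e => ?_⟩
  rw [hS e]
  have hxe := hx.1 e
  have hcongr : ∀ t ∈ Set.Ico (0:ℝ) 1, denI x Tri.ηE Tri.NE Tri.P Tri.Ψ (Sum.inl e) t *
      Real.exp (-((2 - 2 * x e) * Tri.Ψ t)) = x e * ((1 - x e * Tri.g t) *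
        Real.exp (-(x e * (t - x e * Tri.Gi t))) * Real.exp (-((2 - 2 * x e) * Tri.Ψ t))) := by
    intro t ht
    rw [denI_inl_of_mem e ht]
    unfold Tri.ηE Tri.NE
    ring
  have hcont : Continuous (fun t => x e * ((1 - x e * Tri.g t) *
        Real.exp (-(x e * (t - x e * Tri.Gi t))) * Real.exp (-((2 - 2 * x e) * Tri.Ψ t)))) := by
    unfold Tri.g Tri.Gi Tri.Ψ; fun_prop
  have h1 := level_zero (ends G) (lawI x Tri.ηE Tri.NE Tri.P Tri.Ψ)
    (denI x Tri.ηE Tri.NE Tri.P Tri.Ψ) (hazI x Tri.ηE Tri.P) hL (Sum.inl e)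
    (fun t => (2 - 2 * x e) * Tri.Ψ t) (by
      refine IntegrableOn.congr_fun ((hcont.integrableOn_Icc (a := 0) (b := 1)).mono_set
        Set.Ico_subset_Icc_self) (fun t ht => (hcongr t ht).symm) measurableSet_Ico) (by
      intro t ht
      have ht' := Set.Ico_subset_Icc_self ht
      have hΨ0 : 0 ≤ Tri.Ψ t := Tri.profileP.N_nonneg ht'
      calc _ ≤ ∑ i ∈ (Finset.univ.erase (Sum.inl e)).filter
            (fun i => ¬ Disjoint (ends G i) (ends G (Sum.inl e))), wt x i * Tri.Ψ t := by
            refine Finset.sum_le_sum fun i hi => ?_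
            have hi1 := (Finset.mem_filter.1 hi).1
            have hi2 := (Finset.mem_filter.1 hi).2
            exact Tri.item_contrib hG hx e i (Finset.mem_erase.1 hi1).1 hi2 ht'
        _ = (∑ i ∈ (Finset.univ.erase (Sum.inl e)).filter
            (fun i => ¬ Disjoint (ends G i) (ends G (Sum.inl e))), wt x i) * Tri.Ψ t := by
            rw [Finset.sum_mul]
        _ ≤ (2 - 2 * x e) * Tri.Ψ t := mul_le_mul_of_nonneg_right (mass_around hx e) hΨ0)
  refine le_trans ?_ h1
  rw [setIntegral_congr_fun measurableSet_Ico hcongr, integral_const_mul, mul_comm]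
  exact mul_le_mul_of_nonneg_left (Tri.final_integral hxe.1 hxe.2) hxe.1

end

end Pool.Agent.RCRS
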