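import Pool.Agent.RCRS.TriNum

/-! Analytic consequences of the polynomial inequalities for triangle-free graphs
(MP_73ccd0_lc). -/

namespace Pool.Agent.RCRS

open MeasureTheory

/-- integral of a polynomial given by its coefficients -/
theorem integral_poly (a : ℕ → ℝ) (n : ℕ) :
    ∫ t in (0:ℝ)..1, ∑ k ∈ Finset.range n, a k * t ^ k =
      ∑ k ∈ Finset.range n, a k / (k + 1) := by
  rw [intervalIntegral.integral_finsetSum]
  · refine Finset.sum_congr rfl fun k _ => ?_
    rw [intervalIntegral.integral_const_mul, integral_pow]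
    simp
    ring
  · intro k _
    exact (Continuous.intervalIntegrable (by fun_prop) _ _)

/-- `∫ exp (-(c t))` -/
theorem integral_exp_neg {c : ℝ} (hc : 0 < c) {s : ℝ} (hs : 0 ≤ s) :
    ∫ t in Set.Ico 0 s, Real.exp (-(c * t)) = (1 - Real.exp (-(c * s))) / c := by
  rw [integral_Ico_eq_integral_Ioc, ← intervalIntegral.integral_of_le hs]
  have hd : ∀ t ∈ Set.uIcc 0 s, HasDerivAt (fun t => -Real.exp (-(c * t)) / c)
      (Real.exp (-(c * t))) t := by
    intro t _
    have h1 : HasDerivAt (fun t => -(c * t)) (-(c * 1)) t := ((hasDerivAt_id' t).const_mul c).neg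
    have h2 := (h1.exp.neg).div_const c
    refine h2.congr_deriv ?_
    field_simp
  rw [intervalIntegral.integral_eq_sub_of_hasDerivAt hd
    (Continuous.intervalIntegrable (by fun_prop) _ _)]
  simp
  ring

namespace Tri

/-- edges: the attenuation is compensated by the missing mass -/
theorem edge_cond {x t : ℝ} (hx0 : 0 ≤ x) (hx1 : x ≤ 1) (ht0 : 0 ≤ t) (ht1 : t ≤ 1) :
    1 ≤ (1 - x * g t) * Real.exp (x * t) := by
  have h1 : 1 + x * t + (x * t) ^ 2 / 2 ≤ Real.exp (x * t) :=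
    Real.quadratic_le_exp_of_nonneg (mul_nonneg hx0 ht0)
  have hg0 := g_nonneg ht0 ht1
  have hg1 := g_le_one ht0 ht1
  have hu : 0 ≤ 1 - x * g t := by nlinarith
  refine le_trans ?_ (mul_le_mul_of_nonneg_left h1 hu)
  have key : (1 - x * g t) * (1 + x * t + (x * t) ^ 2 / 2) = 1 + x * t ^ 2 *
      (16 / 25 * (1 - x) + x * (14 / 100 + 64 / 100 * t) - x ^ 2 * (t / 2 - 8 / 25 * t ^ 2)) := by
    unfold g; ring
  rw [key]
  have h3 : 0 ≤ 16 / 25 * (1 - x) + x * (14 / 100 + 64 / 100 * t) -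
      x ^ 2 * (t / 2 - 8 / 25 * t ^ 2) := by
    have h4 : x ^ 2 * (t / 2 - 8 / 25 * t ^ 2) ≤ x * (t / 2) := by
      have h5 : x ^ 2 * (t / 2 - 8 / 25 * t ^ 2) ≤ x ^ 2 * (t / 2) :=
        mul_le_mul_of_nonneg_left (by nlinarith) (sq_nonneg x)
      have h6 : x ^ 2 * (t / 2) ≤ x * (t / 2) :=
        mul_le_mul_of_nonneg_right (by nlinarith) (by linarith)
      exact h5.trans h6
    have h7 : 0 ≤ 16 / 25 * (1 - x) := by nlinarith
    have h8 : 0 ≤ x * (14 / 100 + 64 / 100 * t) - x * (t / 2) := by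
      have : x * (14 / 100 + 64 / 100 * t) - x * (t / 2) = x * (14 / 100 + 14 / 100 * t) := by ring
      rw [this]; positivity
    linarith
  have h9 := mul_nonneg (mul_nonneg hx0 (sq_nonneg t)) h3
  linarith

/-- loops -/
theorem loop_cond {t : ℝ} (ht0 : 0 ≤ t) (ht1 : t ≤ 1) : 1 ≤ P t * Real.exp t := by
  have h1 : 1 + t + t ^ 2 / 2 ≤ Real.exp t := Real.quadratic_le_exp_of_nonneg ht0
  exact (P_loop ht0 ht1).trans (mul_le_mul_of_nonneg_left h1 (P_nonneg ht0 ht1))

/-- the level one bound times the attenuation is at most `P` -/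
theorem level_cond {m s : ℝ} (hm0 : 0 ≤ m) (hm1 : m ≤ 1) (hs0 : 0 ≤ s) (hs1 : s ≤ 1) :
    (1 - m * g s) * (1 - (1 - m) * ∫ t in Set.Ico 0 s, Real.exp (-((2 - m) * t))) ≤ P s := by
  have hc : 0 < 2 - m := by linarith
  have hupos : ∀ t, 0 ≤ t → t ≤ 1 → 0 < 1 - m * g t := by
    intro t h0 h1
    have h2 : 1 - g t > 0 := by
      have : g t = t - 16 / 25 * t ^ 2 := by unfold g; ring
      rw [this]; nlinarith
    have h3 := g_nonneg h0 h1
    nlinarith
  rw [integral_exp_neg hc hs0]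
  set F : ℝ → ℝ := fun t => (P t / (1 - m * g t) - 1 / (2 - m)) * Real.exp ((2 - m) * t) with hF
  have hder : ∀ t ∈ Set.Icc (0:ℝ) 1, HasDerivAt F
      (((((-1) + (51/25) * t + (-213/100) * t ^ 2 + (39/25) * t ^ 3) * (1 - m * g t) - P t * (-(m * (1 + (-32/25) * t)))) / (1 - m * g t) ^ 2) *
        Real.exp ((2 - m) * t) + (P t / (1 - m * g t) - 1 / (2 - m)) *
          (Real.exp ((2 - m) * t) * ((2 - m) * 1))) t := by
    intro t ht
    have hu : HasDerivAt (fun t => 1 - m * g t) (-(m * (1 + (-32/25) * t))) t := by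
      have := ((hasDerivAt_g t).const_mul m).const_sub 1
      exact this
    have hne : 1 - m * g t ≠ 0 := (hupos t ht.1 ht.2).ne'
    have h1 := ((hasDerivAt_P t).fun_div hu hne).sub_const (1 / (2 - m))
    have h2 : HasDerivAt (fun t => Real.exp ((2 - m) * t))
        (Real.exp ((2 - m) * t) * ((2 - m) * 1)) t := ((hasDerivAt_id' t).const_mul (2 - m)).exp
    exact h1.fun_mul h2
  have hmono : MonotoneOn F (Set.Icc 0 1) := by
    refine monotoneOn_of_deriv_nonneg (convex_Icc 0 1)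
      (fun t ht => (hder t ht).continuousAt.continuousWithinAt) ?_ ?_
    · intro t ht
      rw [interior_Icc] at ht
      exact (hder t ⟨ht.1.le, ht.2.le⟩).differentiableAt.differentiableWithinAt
    · intro t ht
      rw [interior_Icc] at ht
      rw [(hder t ⟨ht.1.le, ht.2.le⟩).deriv]
      have hE := E_nonneg (t := t) (m := m) ht.1.le ht.2.le hm0 hm1
      have hu := hupos t ht.1.le ht.2.le
      have hid : (((((-1) + (51/25) * t + (-213/100) * t ^ 2 + (39/25) * t ^ 3) * (1 - m * g t) - P t * (-(m * (1 + (-32/25) * t)))) / (1 - m * g t) ^ 2) *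
        Real.exp ((2 - m) * t) + (P t / (1 - m * g t) - 1 / (2 - m)) *
          (Real.exp ((2 - m) * t) * ((2 - m) * 1))) =
          Real.exp ((2 - m) * t) * ((((-1) + (51/25) * t + (-213/100) * t ^ 2 + (39/25) * t ^ 3) * (1 - m * g t) + m * (1 + (-32/25) * t) * P t +
      (2 - m) * P t * (1 - m * g t) - (1 - m * g t) ^ 2) / (1 - m * g t) ^ 2) := by
        have hne := hu.ne'
        have hne2 := hc.ne'
        field_simp
        ring
      rw [hid]
      exact mul_nonneg (Real.exp_pos _).le (div_nonneg hE (sq_nonneg _))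
  have h01 := hmono (Set.left_mem_Icc.2 zero_le_one) (⟨hs0, hs1⟩ : s ∈ Set.Icc (0:ℝ) 1) hs0
  have hF0 : F 0 = 1 - 1 / (2 - m) := by
    simp [hF, P, g]
  rw [hF0] at h01
  have hu := hupos s hs0 hs1
  have hne2 := hc.ne'
  have hexp : Real.exp ((2 - m) * s) * Real.exp (-((2 - m) * s)) = 1 := by
    rw [← Real.exp_add]; simp
  have h2 : (1 - 1 / (2 - m)) * Real.exp (-((2 - m) * s)) ≤ P s / (1 - m * g s) - 1 / (2 - m) := by
    have h3 := mul_le_mul_of_nonneg_right h01 (Real.exp_pos (-((2 - m) * s))).le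
    have h4 : F s * Real.exp (-((2 - m) * s)) = P s / (1 - m * g s) - 1 / (2 - m) := by
      simp only [hF]; rw [mul_assoc, hexp, mul_one]
    rw [h4] at h3
    exact h3
  have h5 : 1 - (1 - m) * ((1 - Real.exp (-((2 - m) * s))) / (2 - m)) ≤ P s / (1 - m * g s) := by
    have : 1 - (1 - m) * ((1 - Real.exp (-((2 - m) * s))) / (2 - m)) =
        (1 - 1 / (2 - m)) * Real.exp (-((2 - m) * s)) + 1 / (2 - m) := by
      field_simp; ring
    rw [this]; linarith
  rw [le_div_iff₀ hu] at h5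
  linarith

/-- polynomial minorant of `exp (-2 Ψ)` -/
theorem q_le {t : ℝ} (ht0 : 0 ≤ t) (ht1 : t ≤ 1) : q t ≤ Real.exp (-(2 * Ψ t)) := by
  set F : ℝ → ℝ := fun t => q t * Real.exp (2 * Ψ t) with hF
  have hder : ∀ t, HasDerivAt F (((-2) + (14973/2500) * t + (-59313/5000) * t ^ 2 + (2263/125) * t ^ 3 + (-42291/2000) * t ^ 4 + (43011/2500) * t ^ 5 + (-84861/10000) * t ^ 6 + (1174/625) * t ^ 7) * Real.exp (2 * Ψ t) +
      q t * (Real.exp (2 * Ψ t) * (2 * P t))) t := by
    intro t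
    exact (hasDerivAt_q t).fun_mul (((hasDerivAt_Ψ t).const_mul 2).exp)
  have hanti : AntitoneOn F (Set.Icc 0 1) := by
    refine antitoneOn_of_deriv_nonpos (convex_Icc 0 1)
      (fun t _ => (hder t).continuousAt.continuousWithinAt)
      (fun t _ => (hder t).differentiableAt.differentiableWithinAt) ?_
    intro t ht
    rw [interior_Icc] at ht
    rw [(hder t).deriv]
    have h1 := q_ode ht.1.le ht.2.le
    have : ((-2) + (14973/2500) * t + (-59313/5000) * t ^ 2 + (2263/125) * t ^ 3 + (-42291/2000) * t ^ 4 + (43011/2500) * t ^ 5 + (-84861/10000) * t ^ 6 + (1174/625) * t ^ 7) * Real.exp (2 * Ψ t) + q t * (Real.exp (2 * Ψ t) * (2 * P t)) =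
        Real.exp (2 * Ψ t) * (((-2) + (14973/2500) * t + (-59313/5000) * t ^ 2 + (2263/125) * t ^ 3 + (-42291/2000) * t ^ 4 + (43011/2500) * t ^ 5 + (-84861/10000) * t ^ 6 + (1174/625) * t ^ 7) + 2 * P t * q t) := by ring
    rw [this]
    exact mul_nonpos_of_nonneg_of_nonpos (Real.exp_pos _).le h1
  have h01 := hanti (Set.left_mem_Icc.2 zero_le_one) (⟨ht0, ht1⟩ : t ∈ Set.Icc (0:ℝ) 1) ht0
  have hF0 : F 0 = 1 := by simp [hF, q, Ψ]
  rw [hF0] at h01
  have hexp : Real.exp (2 * Ψ t) * Real.exp (-(2 * Ψ t)) = 1 := by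
    rw [← Real.exp_add]; simp
  have h3 := mul_le_mul_of_nonneg_right h01 (Real.exp_pos (-(2 * Ψ t))).le
  simp only [hF] at h3
  rw [mul_assoc, hexp] at h3
  linarith


/-- the final integral -/
theorem final_integral {x : ℝ} (hx0 : 0 ≤ x) (hx1 : x ≤ 1) :
    494 / 1000 ≤ ∫ t in Set.Ico (0:ℝ) 1, (1 - x * g t) * Real.exp (-(x * (t - x * Gi t))) *
      Real.exp (-((2 - 2 * x) * Ψ t)) := by
  have hpt : ∀ t ∈ Set.Ico (0:ℝ) 1, q t * ((1 - x * g t) * (1 + x * (2 * Ψ t - t) +
      x ^ 2 * (Gi t + (2 * Ψ t - t) ^ 2 / 2))) ≤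
      (1 - x * g t) * Real.exp (-(x * (t - x * Gi t))) * Real.exp (-((2 - 2 * x) * Ψ t)) := by
    intro t ht
    have ht0 := ht.1
    have ht1 := ht.2.le
    have hA := A_nonneg ht0 ht1
    have hG := Gi_nonneg ht0 ht1
    have hu : 0 ≤ 1 - x * g t := by
      have h1 := g_nonneg ht0 ht1
      have h2 := g_le_one ht0 ht1
      nlinarith
    have he : Real.exp (-(x * (t - x * Gi t))) * Real.exp (-((2 - 2 * x) * Ψ t)) =
        Real.exp (-(2 * Ψ t)) * Real.exp (x * (2 * Ψ t - t) + x ^ 2 * Gi t) := by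
      rw [← Real.exp_add, ← Real.exp_add]; congr 1; ring
    have hy0 : 0 ≤ x * (2 * Ψ t - t) + x ^ 2 * Gi t := by positivity
    have h1 := Real.quadratic_le_exp_of_nonneg hy0
    have h2 : 1 + x * (2 * Ψ t - t) + x ^ 2 * (Gi t + (2 * Ψ t - t) ^ 2 / 2) ≤
        Real.exp (x * (2 * Ψ t - t) + x ^ 2 * Gi t) := by
      refine le_trans ?_ h1
      have h3 : (x * (2 * Ψ t - t)) ^ 2 ≤ (x * (2 * Ψ t - t) + x ^ 2 * Gi t) ^ 2 := by
        apply pow_le_pow_left₀ (by positivity)
        have : 0 ≤ x ^ 2 * Gi t := by positivity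
        linarith
      nlinarith
    have h4 : 0 ≤ 1 + x * (2 * Ψ t - t) + x ^ 2 * (Gi t + (2 * Ψ t - t) ^ 2 / 2) := by positivity
    rw [mul_assoc, he]
    calc q t * ((1 - x * g t) * (1 + x * (2 * Ψ t - t) +
      x ^ 2 * (Gi t + (2 * Ψ t - t) ^ 2 / 2)))
        ≤ Real.exp (-(2 * Ψ t)) * ((1 - x * g t) * (1 + x * (2 * Ψ t - t) +
      x ^ 2 * (Gi t + (2 * Ψ t - t) ^ 2 / 2))) :=
          mul_le_mul_of_nonneg_right (q_le ht0 ht1) (mul_nonneg hu h4)
      _ ≤ Real.exp (-(2 * Ψ t)) * ((1 - x * g t) *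
          Real.exp (x * (2 * Ψ t - t) + x ^ 2 * Gi t)) :=
          mul_le_mul_of_nonneg_left (mul_le_mul_of_nonneg_left h2 hu) (Real.exp_pos _).le
      _ = (1 - x * g t) * (Real.exp (-(2 * Ψ t)) *
          Real.exp (x * (2 * Ψ t - t) + x ^ 2 * Gi t)) := by ring

  -- the polynomial minorant
  set a : ℕ → ℝ := fun k => match k with
    | 0 => 1
    | 1 => (-2)
    | 2 => (14973/5000) + (-9/25) * x
    | 3 => (-19771/5000) + (7/5) * x + (32/75) * x ^ 2 + (-1) * x ^ 3
    | 4 => (2263/500) + (-87283/31250) * x + (-149/150) * x ^ 2 + (289/75) * x ^ 3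
    | 5 => (-42291/10000) + (54073/12500) * x + (20514/15625) * x ^ 2 + (-43289/5000) * x ^ 3
    | 6 => (14337/5000) + (-5693299/1000000) * x + (-943327/750000) * x ^ 2 + (5702797/375000) * x ^ 3
    | 7 => (-12123/10000) + (32355273/5000000) * x + (13800811/18750000) * x ^ 2 + (-425596601/18750000) * x ^ 3
    | 8 => (587/2500) + (-15329093/2500000) * x + (18460303/50000000) * x ^ 2 + (2204726377/75000000) * x ^ 3
    | 9 => (9187293/2000000) * x + (-249582847/125000000) * x ^ 2 + (-990416111/30000000) * x ^ 3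
    | 10 => (-12932793/5000000) * x + (1418935133/400000000) * x ^ 2 + (20050254273/625000000) * x ^ 3
    | 11 => (10373449/10000000) * x + (-24935052949/6000000000) * x ^ 2 + (-271123983997/10000000000) * x ^ 3
    | 12 => (-340591/1250000) * x + (17862205899/5000000000) * x ^ 2 + (3014436755053/150000000000) * x ^ 3
    | 13 => (22893/625000) * x + (-47195839227/20000000000) * x ^ 2 + (-980114781497/75000000000) * x ^ 3
    | 14 => (2438321897/2000000000) * x ^ 2 + (3683717201091/500000000000) * x ^ 3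
    | 15 => (-9702284531/20000000000) * x ^ 2 + (-884929564701/250000000000) * x ^ 3
    | 16 => (708653081/5000000000) * x ^ 2 + (142386695647/100000000000) * x ^ 3
    | 17 => (-34693113/1250000000) * x ^ 2 + (-58400859709/125000000000) * x ^ 3
    | 18 => (892827/312500000) * x ^ 2 + (3701940149/31250000000) * x ^ 3
    | 19 => (-161093127/7812500000) * x ^ 3
    | 20 => (892827/488281250) * x ^ 3
    | _ => 0
  with ha
  have hpoly : ∀ t : ℝ, q t * ((1 - x * g t) * (1 + x * (2 * Ψ t - t) +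
      x ^ 2 * (Gi t + (2 * Ψ t - t) ^ 2 / 2))) = ∑ k ∈ Finset.range 21, a k * t ^ k := by
    intro t
    simp only [Finset.sum_range_succ, Finset.sum_range_zero, ha]
    unfold q g Ψ Gi
    ring
  have hint1 : IntegrableOn (fun t => q t * ((1 - x * g t) * (1 + x * (2 * Ψ t - t) +
      x ^ 2 * (Gi t + (2 * Ψ t - t) ^ 2 / 2)))) (Set.Ico 0 1) := by
    have hc : Continuous (fun t => q t * ((1 - x * g t) * (1 + x * (2 * Ψ t - t) +
      x ^ 2 * (Gi t + (2 * Ψ t - t) ^ 2 / 2)))) := by unfold q g Ψ Gi; fun_prop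
    exact (hc.integrableOn_Icc (a := 0) (b := 1)).mono_set Set.Ico_subset_Icc_self
  have hint2 : IntegrableOn (fun t => (1 - x * g t) * Real.exp (-(x * (t - x * Gi t))) *
      Real.exp (-((2 - 2 * x) * Ψ t))) (Set.Ico 0 1) := by
    have hc : Continuous (fun t => (1 - x * g t) * Real.exp (-(x * (t - x * Gi t))) *
      Real.exp (-((2 - 2 * x) * Ψ t))) := by unfold g Ψ Gi; fun_prop
    exact (hc.integrableOn_Icc (a := 0) (b := 1)).mono_set Set.Ico_subset_Icc_self
  refine le_trans ?_ (setIntegral_mono_on hint1 hint2 measurableSet_Ico hpt)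
  simp_rw [hpoly]
  rw [integral_Ico_eq_integral_Ioc, ← intervalIntegral.integral_of_le zero_le_one, integral_poly]
  simp only [Finset.sum_range_succ, Finset.sum_range_zero, ha]
  norm_num

  have h2 : 0 ≤ 1 - x := by linarith
  have pos : 0 ≤ (907/5040000) * x ^ 0 * (1 - x) ^ 6 + (4960999/180180000000) * x ^ 1 * (1 - x) ^ 5 + (16993799386243879/931170240000000000) * x ^ 2 * (1 - x) ^ 4 + (1974995206572790009/34918884000000000000) * x ^ 3 * (1 - x) ^ 3 + (168061247677124771/2909907000000000000) * x ^ 4 * (1 - x) ^ 2 + (25572263153266901/1293292000000000000) * x ^ 5 * (1 - x) ^ 1 + (12242581515107243/69837768000000000000) * x ^ 6 * (1 - x) ^ 0 := by positivity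
  nlinarith [pos]

end Tri

end Pool.Agent.RCRS
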