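import Pool.Agent.RCRS.Setup

/-! Numerical part for triangle-free graphs (MP_73ccd0_lc): polynomials and their inequalities. -/

namespace Pool.Agent.RCRS.Tri

open MeasureTheory

/-- attenuation strength -/
noncomputable def g (t : ℝ) : ℝ := 0 + 1 * t + (-16/25) * t ^ 2

/-- its integral -/
noncomputable def Gi (t : ℝ) : ℝ := 0 + 0 * t + (1/2) * t ^ 2 + (-16/75) * t ^ 3

/-- bound for the free probability -/
noncomputable def P (t : ℝ) : ℝ := 1 + (-1) * t + (51/50) * t ^ 2 + (-71/100) * t ^ 3 + (39/100) * t ^ 4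

/-- its integral -/
noncomputable def Ψ (t : ℝ) : ℝ := 0 + 1 * t + (-1/2) * t ^ 2 + (17/50) * t ^ 3 + (-71/400) * t ^ 4 + (39/500) * t ^ 5

/-- polynomial minorant of `exp (-2 Ψ)` -/
noncomputable def q (t : ℝ) : ℝ := 1 + (-2) * t + (14973/5000) * t ^ 2 + (-19771/5000) * t ^ 3 + (2263/500) * t ^ 4 + (-42291/10000) * t ^ 5 + (14337/5000) * t ^ 6 + (-12123/10000) * t ^ 7 + (587/2500) * t ^ 8

theorem hasDerivAt_Gi (t : ℝ) : HasDerivAt Gi (g t) t := by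
  have h := ((((hasDerivAt_const t (0 : ℝ)).fun_add ((hasDerivAt_id' t).const_mul (0 : ℝ))).fun_add ((hasDerivAt_pow 2 t).const_mul ((1/2) : ℝ))).fun_add ((hasDerivAt_pow 3 t).const_mul ((-16/75) : ℝ)))
  refine h.congr_deriv ?_
  unfold g
  norm_num
  try ring

theorem hasDerivAt_Ψ (t : ℝ) : HasDerivAt Ψ (P t) t := by
  have h := ((((((hasDerivAt_const t (0 : ℝ)).fun_add ((hasDerivAt_id' t).const_mul (1 : ℝ))).fun_add ((hasDerivAt_pow 2 t).const_mul ((-1/2) : ℝ))).fun_add ((hasDerivAt_pow 3 t).const_mul ((17/50) : ℝ))).fun_add ((hasDerivAt_pow 4 t).const_mul ((-71/400) : ℝ))).fun_add ((hasDerivAt_pow 5 t).const_mul ((39/500) : ℝ)))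
  refine h.congr_deriv ?_
  unfold P
  norm_num
  try ring

theorem hasDerivAt_P (t : ℝ) : HasDerivAt P ((-1) + (51/25) * t + (-213/100) * t ^ 2 + (39/25) * t ^ 3) t := by
  have h := (((((hasDerivAt_const t (1 : ℝ)).fun_add ((hasDerivAt_id' t).const_mul ((-1) : ℝ))).fun_add ((hasDerivAt_pow 2 t).const_mul ((51/50) : ℝ))).fun_add ((hasDerivAt_pow 3 t).const_mul ((-71/100) : ℝ))).fun_add ((hasDerivAt_pow 4 t).const_mul ((39/100) : ℝ)))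
  refine h.congr_deriv ?_
  norm_num
  try ring

theorem hasDerivAt_g (t : ℝ) : HasDerivAt g (1 + (-32/25) * t) t := by
  have h := (((hasDerivAt_const t (0 : ℝ)).fun_add ((hasDerivAt_id' t).const_mul (1 : ℝ))).fun_add ((hasDerivAt_pow 2 t).const_mul ((-16/25) : ℝ)))
  refine h.congr_deriv ?_
  norm_num
  try ring

theorem hasDerivAt_q (t : ℝ) : HasDerivAt q ((-2) + (14973/2500) * t + (-59313/5000) * t ^ 2 + (2263/125) * t ^ 3 + (-42291/2000) * t ^ 4 + (43011/2500) * t ^ 5 + (-84861/10000) * t ^ 6 + (1174/625) * t ^ 7) t := by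
  have h := (((((((((hasDerivAt_const t (1 : ℝ)).fun_add ((hasDerivAt_id' t).const_mul ((-2) : ℝ))).fun_add ((hasDerivAt_pow 2 t).const_mul ((14973/5000) : ℝ))).fun_add ((hasDerivAt_pow 3 t).const_mul ((-19771/5000) : ℝ))).fun_add ((hasDerivAt_pow 4 t).const_mul ((2263/500) : ℝ))).fun_add ((hasDerivAt_pow 5 t).const_mul ((-42291/10000) : ℝ))).fun_add ((hasDerivAt_pow 6 t).const_mul ((14337/5000) : ℝ))).fun_add ((hasDerivAt_pow 7 t).const_mul ((-12123/10000) : ℝ))).fun_add ((hasDerivAt_pow 8 t).const_mul ((587/2500) : ℝ)))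
  refine h.congr_deriv ?_
  norm_num
  try ring

theorem g_nonneg {t : ℝ} (h0 : 0 ≤ t) (h1 : t ≤ 1) : 0 ≤ g t := by
  have h2 : 0 ≤ 1 - t := by linarith
  have key : g t = 1 * t ^ 1 * (1 - t) ^ 1 + (9/25) * t ^ 2 * (1 - t) ^ 0 := by
    unfold g
    ring
  have pos : 0 ≤ 1 * t ^ 1 * (1 - t) ^ 1 + (9/25) * t ^ 2 * (1 - t) ^ 0 := by positivity
  linarith

theorem g_le_one {t : ℝ} (h0 : 0 ≤ t) (h1 : t ≤ 1) : g t ≤ 1 := by
  have h2 : 0 ≤ 1 - t := by linarith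
  have key : 1 - g t = 1 * t ^ 0 * (1 - t) ^ 2 + 1 * t ^ 1 * (1 - t) ^ 1 + (16/25) * t ^ 2 * (1 - t) ^ 0 := by
    unfold g
    ring
  have pos : 0 ≤ 1 * t ^ 0 * (1 - t) ^ 2 + 1 * t ^ 1 * (1 - t) ^ 1 + (16/25) * t ^ 2 * (1 - t) ^ 0 := by positivity
  linarith

theorem P_nonneg {t : ℝ} (h0 : 0 ≤ t) (h1 : t ≤ 1) : 0 ≤ P t := by
  have h2 : 0 ≤ 1 - t := by linarith
  have key : P t = 1 * t ^ 0 * (1 - t) ^ 4 + 3 * t ^ 1 * (1 - t) ^ 3 + (201/50) * t ^ 2 * (1 - t) ^ 2 + (233/100) * t ^ 3 * (1 - t) ^ 1 + (7/10) * t ^ 4 * (1 - t) ^ 0 := by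
    unfold P
    ring
  have pos : 0 ≤ 1 * t ^ 0 * (1 - t) ^ 4 + 3 * t ^ 1 * (1 - t) ^ 3 + (201/50) * t ^ 2 * (1 - t) ^ 2 + (233/100) * t ^ 3 * (1 - t) ^ 1 + (7/10) * t ^ 4 * (1 - t) ^ 0 := by positivity
  linarith

theorem P_le_one {t : ℝ} (h0 : 0 ≤ t) (h1 : t ≤ 1) : P t ≤ 1 := by
  have h2 : 0 ≤ 1 - t := by linarith
  have key : 1 - P t = 1 * t ^ 1 * (1 - t) ^ 3 + (99/50) * t ^ 2 * (1 - t) ^ 2 + (167/100) * t ^ 3 * (1 - t) ^ 1 + (3/10) * t ^ 4 * (1 - t) ^ 0 := by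
    unfold P
    ring
  have pos : 0 ≤ 1 * t ^ 1 * (1 - t) ^ 3 + (99/50) * t ^ 2 * (1 - t) ^ 2 + (167/100) * t ^ 3 * (1 - t) ^ 1 + (3/10) * t ^ 4 * (1 - t) ^ 0 := by positivity
  linarith

theorem Gi_nonneg {t : ℝ} (h0 : 0 ≤ t) (h1 : t ≤ 1) : 0 ≤ Gi t := by
  have h2 : 0 ≤ 1 - t := by linarith
  have key : Gi t = (1/2) * t ^ 2 * (1 - t) ^ 1 + (43/150) * t ^ 3 * (1 - t) ^ 0 := by
    unfold Gi
    ring
  have pos : 0 ≤ (1/2) * t ^ 2 * (1 - t) ^ 1 + (43/150) * t ^ 3 * (1 - t) ^ 0 := by positivity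
  linarith

theorem q_nonneg {t : ℝ} (h0 : 0 ≤ t) (h1 : t ≤ 1) : 0 ≤ q t := by
  have h2 : 0 ≤ 1 - t := by linarith
  have key : q t = 1 * t ^ 0 * (1 - t) ^ 8 + 6 * t ^ 1 * (1 - t) ^ 7 + (84973/5000) * t ^ 2 * (1 - t) ^ 6 + (140067/5000) * t ^ 3 * (1 - t) ^ 5 + (14837/500) * t ^ 4 * (1 - t) ^ 4 + (202249/10000) * t ^ 5 * (1 - t) ^ 3 + (87131/10000) * t ^ 6 * (1 - t) ^ 2 + (10679/5000) * t ^ 7 * (1 - t) ^ 1 + (142/625) * t ^ 8 * (1 - t) ^ 0 := by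
    unfold q
    ring
  have pos : 0 ≤ 1 * t ^ 0 * (1 - t) ^ 8 + 6 * t ^ 1 * (1 - t) ^ 7 + (84973/5000) * t ^ 2 * (1 - t) ^ 6 + (140067/5000) * t ^ 3 * (1 - t) ^ 5 + (14837/500) * t ^ 4 * (1 - t) ^ 4 + (202249/10000) * t ^ 5 * (1 - t) ^ 3 + (87131/10000) * t ^ 6 * (1 - t) ^ 2 + (10679/5000) * t ^ 7 * (1 - t) ^ 1 + (142/625) * t ^ 8 * (1 - t) ^ 0 := by positivity
  linarith

theorem A_nonneg {t : ℝ} (h0 : 0 ≤ t) (h1 : t ≤ 1) : 0 ≤ 2 * Ψ t - t := by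
  have h2 : 0 ≤ 1 - t := by linarith
  have key : 2 * Ψ t - t = 1 * t ^ 1 * (1 - t) ^ 4 + 3 * t ^ 2 * (1 - t) ^ 3 + (92/25) * t ^ 3 * (1 - t) ^ 2 + (401/200) * t ^ 4 * (1 - t) ^ 1 + (481/1000) * t ^ 5 * (1 - t) ^ 0 := by
    unfold Ψ
    ring
  have pos : 0 ≤ 1 * t ^ 1 * (1 - t) ^ 4 + 3 * t ^ 2 * (1 - t) ^ 3 + (92/25) * t ^ 3 * (1 - t) ^ 2 + (401/200) * t ^ 4 * (1 - t) ^ 1 + (481/1000) * t ^ 5 * (1 - t) ^ 0 := by positivity
  linarith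

theorem q_ode {t : ℝ} (h0 : 0 ≤ t) (h1 : t ≤ 1) : ((-2) + (14973/2500) * t + (-59313/5000) * t ^ 2 + (2263/125) * t ^ 3 + (-42291/2000) * t ^ 4 + (43011/2500) * t ^ 5 + (-84861/10000) * t ^ 6 + (1174/625) * t ^ 7) + 2 * P t * q t ≤ 0 := by
  have h2 : 0 ≤ 1 - t := by linarith
  have key : -(((-2) + (14973/2500) * t + (-59313/5000) * t ^ 2 + (2263/125) * t ^ 3 + (-42291/2000) * t ^ 4 + (43011/2500) * t ^ 5 + (-84861/10000) * t ^ 6 + (1174/625) * t ^ 7) + 2 * P t * q t) = (27/2500) * t ^ 1 * (1 - t) ^ 16 + (31/5000) * t ^ 2 * (1 - t) ^ 15 + (453/5000) * t ^ 3 * (1 - t) ^ 14 + (280379/250000) * t ^ 4 * (1 - t) ^ 13 + (460601/125000) * t ^ 5 * (1 - t) ^ 12 + (1384639/250000) * t ^ 6 * (1 - t) ^ 11 + (1085381/250000) * t ^ 7 * (1 - t) ^ 10 + (1595691/500000) * t ^ 8 * (1 - t) ^ 9 + (1442257/250000) * t ^ 9 * (1 - t) ^ 8 + (4262761/500000) * t ^ 10 *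 (1 - t) ^ 7 + (853183/125000) * t ^ 11 * (1 - t) ^ 6 + (1425067/500000) * t ^ 12 * (1 - t) ^ 5 + (141993/250000) * t ^ 13 * (1 - t) ^ 4 + (53381/500000) * t ^ 14 * (1 - t) ^ 3 + (17021/250000) * t ^ 15 * (1 - t) ^ 2 + (2291/125000) * t ^ 16 * (1 - t) ^ 1 + (3/25000) * t ^ 17 * (1 - t) ^ 0 := by
    unfold P q
    ring
  have pos : 0 ≤ (27/2500) * t ^ 1 * (1 - t) ^ 16 + (31/5000) * t ^ 2 * (1 - t) ^ 15 + (453/5000) * t ^ 3 * (1 - t) ^ 14 + (280379/250000) * t ^ 4 * (1 - t) ^ 13 + (460601/125000) * t ^ 5 * (1 - t) ^ 12 + (1384639/250000) * t ^ 6 * (1 - t) ^ 11 + (1085381/250000) * t ^ 7 * (1 - t) ^ 10 + (1595691/500000) * t ^ 8 * (1 - t) ^ 9 + (1442257/250000) * t ^ 9 * (1 - t) ^ 8 + (4262761/500000) * t ^ 10 * (1 - t) ^ 7 + (853183/125000) * t ^ 11 * (1 - t) ^ 6 + (1425067/500000) * t ^ 12 * (1 - t) ^ 5 + (141993/250000) * t ^ 13 * (1 - t) ^ 4 + (53381/500000)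 * t ^ 14 * (1 - t) ^ 3 + (17021/250000) * t ^ 15 * (1 - t) ^ 2 + (2291/125000) * t ^ 16 * (1 - t) ^ 1 + (3/25000) * t ^ 17 * (1 - t) ^ 0 := by positivity
  linarith

theorem P_loop {t : ℝ} (h0 : 0 ≤ t) (h1 : t ≤ 1) : 1 ≤ P t * (1 + t + t ^ 2 / 2) := by
  have h2 : 0 ≤ 1 - t := by linarith
  have key : P t * (1 + t + t ^ 2 / 2) - 1 = (13/25) * t ^ 2 * (1 - t) ^ 4 + (189/100) * t ^ 3 * (1 - t) ^ 3 + (137/50) * t ^ 4 * (1 - t) ^ 2 + (77/40) * t ^ 5 * (1 - t) ^ 1 + (3/4) * t ^ 6 * (1 - t) ^ 0 := by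
    unfold P
    ring
  have pos : 0 ≤ (13/25) * t ^ 2 * (1 - t) ^ 4 + (189/100) * t ^ 3 * (1 - t) ^ 3 + (137/50) * t ^ 4 * (1 - t) ^ 2 + (77/40) * t ^ 5 * (1 - t) ^ 1 + (3/4) * t ^ 6 * (1 - t) ^ 0 := by positivity
  linarith

theorem C1_nonneg {t : ℝ} (h0 : 0 ≤ t) (h1 : t ≤ 1) : 0 ≤ 1 + (-66/25) * t + (147/50) * t ^ 2 + (-4431/2500) * t ^ 3 + (2111/2500) * t ^ 4 + (-156/625) * t ^ 5 := by
  have h2 : 0 ≤ 1 - t := by linarith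
  have key : 1 + (-66/25) * t + (147/50) * t ^ 2 + (-4431/2500) * t ^ 3 + (2111/2500) * t ^ 4 + (-156/625) * t ^ 5 = 1 * t ^ 0 * (1 - t) ^ 5 + (59/25) * t ^ 1 * (1 - t) ^ 4 + (119/50) * t ^ 2 * (1 - t) ^ 3 + (3019/2500) * t ^ 3 * (1 - t) ^ 2 + (1399/2500) * t ^ 4 * (1 - t) ^ 1 + (153/1250) * t ^ 5 * (1 - t) ^ 0 := by
    ring
  have pos : 0 ≤ 1 * t ^ 0 * (1 - t) ^ 5 + (59/25) * t ^ 1 * (1 - t) ^ 4 + (119/50) * t ^ 2 * (1 - t) ^ 3 + (3019/2500) * t ^ 3 * (1 - t) ^ 2 + (1399/2500) * t ^ 4 * (1 - t) ^ 1 + (153/1250) * t ^ 5 * (1 - t) ^ 0 := by positivity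
  linarith

theorem F1_nonneg {t : ℝ} (h0 : 0 ≤ t) (h1 : t ≤ 1) : 0 ≤ (51/2500) + (-9391/62500) * t + (27257/125000) * t ^ 2 + (5674119/6250000) * t ^ 3 + (-1802759/6250000) * t ^ 4 + (151487/781250) * t ^ 5 + (-8371/78125) * t ^ 6 + (624/15625) * t ^ 7 := by
  have h2 : 0 ≤ 1 - t := by linarith
  have key : (51/2500) + (-9391/62500) * t + (27257/125000) * t ^ 2 + (5674119/6250000) * t ^ 3 + (-1802759/6250000) * t ^ 4 + (151487/781250) * t ^ 5 + (-8371/78125) * t ^ 6 + (624/15625) * t ^ 7 = (51/2500) * t ^ 0 * (1 - t) ^ 19 + (7417/31250) * t ^ 1 * (1 - t) ^ 18 + (125231/125000) * t ^ 2 * (1 - t) ^ 17 + (8707769/6250000) * t ^ 3 * (1 - t) ^ 16 + (443029/1250000) * t ^ 4 * (1 - t) ^ 15 + (190726791/6250000) * t ^ 5 * (1 - t) ^ 14 + (1661218009/6250000) * t ^ 6 * (1 - t) ^ 13 + (7032800931/6250000) * t ^ 7 * (1 - t) ^ 12 + (19333094261/6250000) * t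 ^ 8 * (1 - t) ^ 11 + (38252476691/6250000) * t ^ 9 * (1 - t) ^ 10 + (57141455657/6250000) * t ^ 10 * (1 - t) ^ 9 + (66000605593/6250000) * t ^ 11 * (1 - t) ^ 8 + (59562164987/6250000) * t ^ 12 * (1 - t) ^ 7 + (8405765713/1250000) * t ^ 13 * (1 - t) ^ 6 + (23002564347/6250000) * t ^ 14 * (1 - t) ^ 5 + (9588096241/6250000) * t ^ 15 * (1 - t) ^ 4 + (2945744859/6250000) * t ^ 16 * (1 - t) ^ 3 + (629593481/6250000) * t ^ 17 * (1 - t) ^ 2 + (83687573/6250000) * t ^ 18 * (1 - t) ^ 1 + (2607213/3125000) * t ^ 19 * (1 - t) ^ 0 := by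
    ring
  have pos : 0 ≤ (51/2500) * t ^ 0 * (1 - t) ^ 19 + (7417/31250) * t ^ 1 * (1 - t) ^ 18 + (125231/125000) * t ^ 2 * (1 - t) ^ 17 + (8707769/6250000) * t ^ 3 * (1 - t) ^ 16 + (443029/1250000) * t ^ 4 * (1 - t) ^ 15 + (190726791/6250000) * t ^ 5 * (1 - t) ^ 14 + (1661218009/6250000) * t ^ 6 * (1 - t) ^ 13 + (7032800931/6250000) * t ^ 7 * (1 - t) ^ 12 + (19333094261/6250000) * t ^ 8 * (1 - t) ^ 11 + (38252476691/6250000) * t ^ 9 * (1 - t) ^ 10 + (57141455657/6250000) * t ^ 10 * (1 - t) ^ 9 + (66000605593/6250000) * t ^ 11 * (1 - t) ^ 8 + (59562164987/6250000) * t ^ 12 * (1 - t) ^ 7 + (8405765713/1250000) * t ^ 13 * (1 - t) ^ 6 + (23002564347/6250000) * t ^ 14 * (1 - t) ^ 5 + (9588096241/6250000) * t ^ 15 * (1 - t) ^ 4 + (2945744859/6250000) * t ^ 16 * (1 - t) ^ 3 + (629593481/6250000) * t ^ 17 * (1 - t) ^ 2 + (83687573/6250000) * t ^ 18 * (1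 - t) ^ 1 + (2607213/3125000) * t ^ 19 * (1 - t) ^ 0 := by positivity
  linarith

theorem F2_nonneg {t : ℝ} (h0 : 0 ≤ t) (h1 : t ≤ 1) : 0 ≤ (51/2500) + (31909/62500) * t + (-282593/125000) * t ^ 2 + (21717419/6250000) * t ^ 3 + (-16622059/6250000) * t ^ 4 + (1014637/781250) * t ^ 5 + (-23971/78125) * t ^ 6 + (624/15625) * t ^ 7 := by
  have h2 : 0 ≤ 1 - t := by linarith
  have key : (51/2500) + (31909/62500) * t + (-282593/125000) * t ^ 2 + (21717419/6250000) * t ^ 3 + (-16622059/6250000) * t ^ 4 + (1014637/781250) * t ^ 5 + (-23971/78125) * t ^ 6 + (624/15625) * t ^ 7 = (51/2500) * t ^ 0 * (1 - t) ^ 24 + (62509/62500) * t ^ 1 * (1 - t) ^ 23 + (1889021/125000) * t ^ 2 * (1 - t) ^ 22 + (776222819/6250000) * t ^ 3 * (1 - t) ^ 21 + (418139349/625000) * t ^ 4 * (1 - t) ^ 20 + (8075676203/3125000) * t ^ 5 * (1 - t) ^ 19 + (23525738777/3125000) * t ^ 6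 * (1 - t) ^ 18 + (106533199431/6250000) * t ^ 7 * (1 - t) ^ 17 + (19075863591/625000) * t ^ 8 * (1 - t) ^ 16 + (17013704856/390625) * t ^ 9 * (1 - t) ^ 15 + (77277806117/1562500) * t ^ 10 * (1 - t) ^ 14 + (137810024731/3125000) * t ^ 11 * (1 - t) ^ 13 + (46678266817/1562500) * t ^ 12 * (1 - t) ^ 12 + (22226018229/1562500) * t ^ 13 * (1 - t) ^ 11 + (5904046637/1562500) * t ^ 14 * (1 - t) ^ 10 + (69516859/3125000) * t ^ 15 * (1 - t) ^ 9 + (141802389/781250) * t ^ 16 * (1 - t) ^ 8 + (1565593767/1562500) * t ^ 17 * (1 - t) ^ 7 + (3471250689/3125000) * t ^ 18 * (1 - t) ^ 6 + (4418442343/6250000) * t ^ 19 * (1 - t) ^ 5 + (942266453/3125000) * t ^ 20 * (1 - t) ^ 4 + (277435027/3125000) * t ^ 21 * (1 - t) ^ 3 + (54784653/3125000) * t ^ 22 * (1 - t) ^ 2 + (13172803/6250000) * t ^ 23 * (1 - t) ^ 1 + (366563/3125000) * t ^ 24 * (1 - t) ^ 0 := by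
    ring
  have pos : 0 ≤ (51/2500) * t ^ 0 * (1 - t) ^ 24 + (62509/62500) * t ^ 1 * (1 - t) ^ 23 + (1889021/125000) * t ^ 2 * (1 - t) ^ 22 + (776222819/6250000) * t ^ 3 * (1 - t) ^ 21 + (418139349/625000) * t ^ 4 * (1 - t) ^ 20 + (8075676203/3125000) * t ^ 5 * (1 - t) ^ 19 + (23525738777/3125000) * t ^ 6 * (1 - t) ^ 18 + (106533199431/6250000) * t ^ 7 * (1 - t) ^ 17 + (19075863591/625000) * t ^ 8 * (1 - t) ^ 16 + (17013704856/390625) * t ^ 9 * (1 - t) ^ 15 + (77277806117/1562500) * t ^ 10 * (1 - t) ^ 14 + (137810024731/3125000) * t ^ 11 * (1 - t) ^ 13 + (46678266817/1562500) * t ^ 12 * (1 - t) ^ 12 + (22226018229/1562500) * t ^ 13 * (1 - t) ^ 11 + (5904046637/1562500) * t ^ 14 * (1 - t) ^ 10 + (69516859/3125000) * t ^ 15 * (1 - t) ^ 9 + (141802389/781250) * t ^ 16 * (1 - t) ^ 8 + (1565593767/1562500) * t ^ 17 * (1 - t) ^ 7 + (3471250689/3125000)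 * t ^ 18 * (1 - t) ^ 6 + (4418442343/6250000) * t ^ 19 * (1 - t) ^ 5 + (942266453/3125000) * t ^ 20 * (1 - t) ^ 4 + (277435027/3125000) * t ^ 21 * (1 - t) ^ 3 + (54784653/3125000) * t ^ 22 * (1 - t) ^ 2 + (13172803/6250000) * t ^ 23 * (1 - t) ^ 1 + (366563/3125000) * t ^ 24 * (1 - t) ^ 0 := by positivity
  linarith

/-- the differential inequality for `P / (1 - m g)` -/
theorem E_nonneg {t m : ℝ} (h0 : 0 ≤ t) (h1 : t ≤ 1) (hm0 : 0 ≤ m) (hm1 : m ≤ 1) :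
    0 ≤ ((-1) + (51/25) * t + (-213/100) * t ^ 2 + (39/25) * t ^ 3) * (1 - m * g t) + m * (1 + (-32/25) * t) * P t +
      (2 - m) * P t * (1 - m * g t) - (1 - m * g t) ^ 2 := by
  have e1 := C1_nonneg h0 h1
  have e2 := F1_nonneg h0 h1
  have e3 := F2_nonneg h0 h1
  have e4 : 0 ≤ 1 - m := by linarith
  have key : ((-1) + (51/25) * t + (-213/100) * t ^ 2 + (39/25) * t ^ 3) * (1 - m * g t) + m * (1 + (-32/25) * t) * P t +
      (2 - m) * P t * (1 - m * g t) - (1 - m * g t) ^ 2 =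
      t * ((1 + (-66/25) * t + (147/50) * t ^ 2 + (-4431/2500) * t ^ 3 + (2111/2500) * t ^ 4 + (-156/625) * t ^ 5) * (m - ((7/50) + (2/5) * t)) ^ 2 + ((51/2500) + (-9391/62500) * t + (27257/125000) * t ^ 2 + (5674119/6250000) * t ^ 3 + (-1802759/6250000) * t ^ 4 + (151487/781250) * t ^ 5 + (-8371/78125) * t ^ 6 + (624/15625) * t ^ 7) * (1 - m) +
        ((51/2500) + (31909/62500) * t + (-282593/125000) * t ^ 2 + (21717419/6250000) * t ^ 3 + (-16622059/6250000) * t ^ 4 + (1014637/781250) * t ^ 5 + (-23971/78125) * t ^ 6 + (624/15625) * t ^ 7) * m) := by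
    unfold g P
    ring
  rw [key]
  have p1 := mul_nonneg e1 (sq_nonneg (m - ((7/50) + (2/5) * t)))
  have p2 := mul_nonneg e2 e4
  have p3 := mul_nonneg e3 hm0
  exact mul_nonneg h0 (by linarith)

end Pool.Agent.RCRS.Tri
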